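import Mathlib

set_option autoImplicit false

namespace Pool.Agent.Helper87.DML

open Finset Function

section Forest

variable {X : Type} [Fintype X] [DecidableEq X]

omit [Fintype X] in
lemma iterate_update_eq (g : X → X) (u y : X) (x : X) (n : ℕ) (h : ∀ m < n, g^[m] x ≠ u) :
    (update g u y)^[n] x = g^[n] x := by
  induction n with
  | zero => rfl
  | succ n ih =>
    rw [iterate_succ_apply', iterate_succ_apply', ih (fun m hm => h m (by omega))]
    rw [update_of_ne (h n (by omega))]

omit [Fintype X] [DecidableEq X] in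
lemma iterate_fixed_of_le {g : X → X} {x r : X} (hr : g r = r) {n m : ℕ} (hn : g^[n] x = r)
    (hnm : n ≤ m) : g^[m] x = r := by
  obtain ⟨k, rfl⟩ := Nat.exists_eq_add_of_le hnm
  rw [add_comm, iterate_add_apply, hn]
  exact iterate_fixed hr k

/-- Functions fixing everything outside `W` and all of whose orbits leave `W`. -/
noncomputable def acyc (W : Finset X) : Finset (X → X) := by
  classical
  exact univ.filter (fun g => (∀ x ∉ W, g x = x) ∧ ∀ x, ∃ n : ℕ, g^[n] x ∉ W)

lemma mem_acyc {W : Finset X} {g : X → X} :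
    g ∈ acyc W ↔ (∀ x ∉ W, g x = x) ∧ ∀ x, ∃ n : ℕ, g^[n] x ∉ W := by
  simp [acyc]

/-- The points whose orbit hits `r`. -/
noncomputable def reachSet (g : X → X) (r : X) : Finset X := by
  classical
  exact univ.filter (fun x => ∃ n : ℕ, g^[n] x = r)

omit [DecidableEq X] in
lemma mem_reachSet {g : X → X} {r x : X} : x ∈ reachSet g r ↔ ∃ n : ℕ, g^[n] x = r := by
  simp [reachSet]

omit [Fintype X] [DecidableEq X] in
lemma reach_unique {g : X → X} {x r r' : X} (hr : g r = r) (hr' : g r' = r')
    (h : ∃ n : ℕ, g^[n] x = r) (h' : ∃ n : ℕ, g^[n] x = r') : r = r' := by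
  obtain ⟨n, hn⟩ := h
  obtain ⟨n', hn'⟩ := h'
  rw [← iterate_fixed_of_le hr hn (le_max_left n n'), ← iterate_fixed_of_le hr' hn' (le_max_right n n')]

omit [Fintype X] in
lemma iterate_of_reach {g' : X → X} {u y x : X} (hx : ∃ n : ℕ, g'^[n] x = u) :
    ∃ n₀ : ℕ, g'^[n₀] x = u ∧ (∀ m < n₀, g'^[m] x ≠ u) ∧ (update g' u y)^[n₀ + 1] x = y := by
  classical
  refine ⟨Nat.find hx, Nat.find_spec hx, fun m hm => Nat.find_min hx hm, ?_⟩
  rw [iterate_succ_apply', iterate_update_eq g' u y x _ (fun m hm => Nat.find_min hx hm),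
    Nat.find_spec hx]
  simp

omit [Fintype X] in
/-- If `y` does not reach `u` under `g'`, then for `g = update g' u y` the iterates of `x` after
passing through `u` are the iterates of `y` under `g'`. -/
lemma iterate_update_of_not_reach {g' : X → X} {u y : X} (hy : ¬ ∃ n : ℕ, g'^[n] y = u) (n : ℕ) :
    (update g' u y)^[n] y = g'^[n] y := by
  push Not at hy
  exact iterate_update_eq g' u y y n (fun m _ => hy m)

lemma acyc_insert_of {W : Finset X} {u : X} {g' : X → X} (hg' : g' ∈ acyc W) {y : X}
    (hy : ¬ ∃ n : ℕ, g'^[n] y = u) : update g' u y ∈ acyc (insert u W) := by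
  rw [mem_acyc] at hg' ⊢
  obtain ⟨h1, h2⟩ := hg'
  refine ⟨fun x hx => ?_, fun x => ?_⟩
  · rw [mem_insert, not_or] at hx
    rw [update_of_ne hx.1]
    exact h1 x hx.2
  · by_cases hxu : ∃ n : ℕ, g'^[n] x = u
    · obtain ⟨n₀, _, _, h5⟩ := iterate_of_reach (y := y) hxu
      obtain ⟨m, hm⟩ := h2 y
      refine ⟨m + (n₀ + 1), ?_⟩
      rw [iterate_add_apply, h5, iterate_update_of_not_reach hy, mem_insert, not_or]
      exact ⟨fun h => hy ⟨m, h⟩, hm⟩
    · obtain ⟨m, hm⟩ := h2 x
      push Not at hxu
      refine ⟨m, ?_⟩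
      rw [iterate_update_eq g' u y x m (fun k _ => hxu k), mem_insert, not_or]
      exact ⟨hxu m, hm⟩

lemma acyc_of_insert {W : Finset X} {u : X} (hu : u ∉ W) {g : X → X}
    (hg : g ∈ acyc (insert u W)) :
    update g u u ∈ acyc W ∧ ¬ ∃ n : ℕ, (update g u u)^[n] (g u) = u := by
  rw [mem_acyc] at hg
  obtain ⟨h1, h2⟩ := hg
  refine ⟨?_, ?_⟩
  · rw [mem_acyc]
    refine ⟨fun x hx => ?_, fun x => ?_⟩
    · by_cases hxu : x = u
      · subst hxu; simp
      · rw [update_of_ne hxu]
        exact h1 x (by simp [hxu, hx])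
    · by_cases hxu : ∃ n : ℕ, (update g u u)^[n] x = u
      · obtain ⟨n, hn⟩ := hxu
        exact ⟨n, by rw [hn]; exact hu⟩
      · push Not at hxu
        obtain ⟨n, hn⟩ := h2 x
        refine ⟨n, ?_⟩
        have h3 : g = update (update g u u) u (g u) := by simp
        have h4 : g^[n] x = (update g u u)^[n] x := by
          conv_lhs => rw [h3]
          exact iterate_update_eq (update g u u) u (g u) x n (fun m _ => hxu m)
        rw [← h4]
        intro h5
        exact hn (mem_insert_of_mem h5)
  · intro hreach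
    have h3 : g = update (update g u u) u (g u) := by simp
    obtain ⟨n₀, _, h4, h5⟩ := iterate_of_reach (g' := update g u u) (y := g u) hreach
    rw [← h3] at h5
    -- g^[n₀+1] (g u) = g u
    have h6 : ∀ j : ℕ, g^[(n₀ + 1) * j] (g u) = g u := by
      intro j
      rw [iterate_mul]
      exact iterate_fixed h5 j
    obtain ⟨m, hm⟩ := h2 u
    have h7 := h1 _ hm
    have h8 : g^[(n₀ + 1) * m + 1] u = g^[m] u := by
      apply iterate_fixed_of_le h7 rfl
      nlinarith
    rw [iterate_succ_apply, h6 m] at h8
    -- so g u = g^[m] u is fixed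
    have h9 : ∀ k, g^[k] (g u) = g u := by
      intro k
      apply iterate_fixed
      rw [h8]; exact h7
    -- n₀ iterate of g u under g is u
    have h10 : g^[n₀] (g u) = u := by
      have : g^[n₀] (g u) = (update g u u)^[n₀] (g u) := by
        have h11 := iterate_update_eq (update g u u) u (g u) (g u) n₀ h4
        rwa [← h3] at h11
      rw [this]; assumption
    rw [h9] at h10
    apply hm
    rw [← h8, h10]
    exact mem_insert_self u W

lemma reach_update_iff {W : Finset X} {u : X} (hu : u ∉ W) {g' : X → X} (hg' : g' ∈ acyc W) {y : X}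
    (hy : ¬ ∃ n : ℕ, g'^[n] y = u) {r : X} (hr : r ∉ insert u W) (x : X) :
    (∃ n : ℕ, (update g' u y)^[n] x = r) ↔
      ((∃ n : ℕ, g'^[n] x = r) ∨ ((∃ n : ℕ, g'^[n] x = u) ∧ ∃ n : ℕ, g'^[n] y = r)) := by
  rw [mem_acyc] at hg'
  obtain ⟨h1, h2⟩ := hg'
  rw [mem_insert, not_or] at hr
  have hgu : g' u = u := h1 u hu
  have hgr : g' r = r := h1 r hr.2
  constructor
  · rintro ⟨n, hn⟩
    by_cases hxu : ∃ n : ℕ, g'^[n] x = u
    · obtain ⟨n₀, h3, h4, h5⟩ := iterate_of_reach (y := y) hxu
      by_cases hle : n ≤ n₀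
      · exfalso
        rw [iterate_update_eq g' u y x n (fun m hm => h4 m (by omega))] at hn
        exact hr.1 (reach_unique hgr hgu ⟨n, hn⟩ hxu)
      · push Not at hle
        right
        refine ⟨hxu, n - (n₀ + 1), ?_⟩
        have : n = (n - (n₀ + 1)) + (n₀ + 1) := by omega
        rw [this, iterate_add_apply, h5, iterate_update_of_not_reach hy] at hn
        exact hn
    · left
      push Not at hxu
      exact ⟨n, by rw [← hn, iterate_update_eq g' u y x n (fun m _ => hxu m)]⟩
  · rintro (⟨n, hn⟩ | ⟨hxu, n, hn⟩)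
    · have hxu : ∀ m, g'^[m] x ≠ u := by
        intro m hm
        exact hr.1 (reach_unique hgr hgu ⟨n, hn⟩ ⟨m, hm⟩)
      exact ⟨n, by rw [iterate_update_eq g' u y x n (fun m _ => hxu m), hn]⟩
    · obtain ⟨n₀, h3, h4, h5⟩ := iterate_of_reach (y := y) hxu
      exact ⟨n + (n₀ + 1), by rw [iterate_add_apply, h5, iterate_update_of_not_reach hy, hn]⟩

open Classical in
lemma card_reach_update {W : Finset X} {u : X} (hu : u ∉ W) {g' : X → X} (hg' : g' ∈ acyc W) {y : X}
    (hy : ¬ ∃ n : ℕ, g'^[n] y = u) {r : X} (hr : r ∉ insert u W) :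
    (reachSet (update g' u y) r).card = (reachSet g' r).card +
      (if ∃ n : ℕ, g'^[n] y = r then (reachSet g' u).card else 0) := by
  classical
  have hg'' := mem_acyc.mp hg'
  have hr' := hr
  rw [mem_insert, not_or] at hr'
  have hgu : g' u = u := hg''.1 u hu
  have hgr : g' r = r := hg''.1 r hr'.2
  split_ifs with hyr
  · have : reachSet (update g' u y) r = reachSet g' r ∪ reachSet g' u := by
      ext x
      rw [mem_union, mem_reachSet, mem_reachSet, mem_reachSet, reach_update_iff hu hg' hy hr]
      tauto
    rw [this, card_union_of_disjoint]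
    rw [disjoint_left]
    intro x hx hx'
    rw [mem_reachSet] at hx hx'
    exact hr'.1 (reach_unique hgr hgu hx hx')
  · have : reachSet (update g' u y) r = reachSet g' r := by
      ext x
      rw [mem_reachSet, mem_reachSet, reach_update_iff hu hg' hy hr]
      tauto
    rw [this, add_zero]

/-- The key counting identity. -/
lemma sum_reach (W : Finset X) : ∀ r ∉ W,
    ∑ g ∈ acyc W, (reachSet g r).card = Fintype.card X ^ W.card := by
  classical
  induction W using Finset.induction_on with
  | empty =>
    intro r _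
    have h1 : acyc (∅ : Finset X) = {id} := by
      ext g
      rw [mem_acyc, mem_singleton]
      constructor
      · rintro ⟨h, _⟩
        funext x; exact h x (by simp)
      · rintro rfl; simp
    rw [h1, sum_singleton]
    have h2 : reachSet (id : X → X) r = {r} := by
      ext x
      rw [mem_reachSet, mem_singleton]
      simp
    rw [h2]; simp
  | insert u W hu ih =>
    intro r hr
    have hr' := hr
    rw [mem_insert, not_or] at hr'
    -- reindex
    have hbij : ∑ g ∈ acyc (insert u W), (reachSet g r).card =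
        ∑ gy ∈ (acyc W ×ˢ (univ : Finset X)).filter (fun gy => ¬ ∃ n : ℕ, gy.1^[n] gy.2 = u),
          (reachSet (update gy.1 u gy.2) r).card := by
      symm
      refine Finset.sum_bij' (fun gy _ => update gy.1 u gy.2) (fun g _ => (update g u u, g u))
        ?_ ?_ ?_ ?_ ?_
      · intro gy hgy
        rw [mem_filter, mem_product] at hgy
        exact acyc_insert_of hgy.1.1 hgy.2
      · intro g hg
        rw [mem_filter, mem_product]
        have := acyc_of_insert hu hg
        exact ⟨⟨this.1, mem_univ _⟩, this.2⟩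
      · intro gy hgy
        rw [mem_filter, mem_product] at hgy
        have hgu : gy.1 u = u := (mem_acyc.mp hgy.1.1).1 u hu
        have h5 : update gy.1 u u = gy.1 := by
          calc update gy.1 u u = update gy.1 u (gy.1 u) := by rw [hgu]
            _ = gy.1 := update_eq_self u gy.1
        ext1
        · simp only [update_idem]
          exact h5
        · simp
      · intro g _
        simp
      · intro gy _
        rfl
    rw [hbij]
    rw [sum_filter, sum_product]
    rw [card_insert_of_notMem hu, pow_succ, ← ih r hr'.2, sum_mul]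
    apply sum_congr rfl
    intro g' hg'
    have hg'' := mem_acyc.mp hg'
    have hgu : g' u = u := hg''.1 u hu
    have hgr : g' r = r := hg''.1 r hr'.2
    rw [← sum_filter]
    have h1 : ∀ y ∈ univ.filter (fun y => ¬ ∃ n : ℕ, g'^[n] y = u),
        (reachSet (update g' u y) r).card = (reachSet g' r).card +
      (if ∃ n : ℕ, g'^[n] y = r then (reachSet g' u).card else 0) := by
      intro y hy
      rw [mem_filter] at hy
      exact card_reach_update hu hg' hy.2 hr
    rw [sum_congr rfl h1, sum_add_distrib, sum_const, ← sum_filter, sum_const]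
    have h2 : (univ.filter (fun y => ¬ ∃ n : ℕ, g'^[n] y = u)).card + (reachSet g' u).card =
        Fintype.card X := by
      have : reachSet g' u = univ.filter (fun y => ∃ n : ℕ, g'^[n] y = u) := by
        ext x; rw [mem_reachSet, mem_filter]; simp
      rw [this, add_comm, Finset.card_filter_add_card_filter_not, card_univ]
    have h3 : ((univ.filter (fun y => ¬ ∃ n : ℕ, g'^[n] y = u)).filter
        (fun y => ∃ n : ℕ, g'^[n] y = r)) = reachSet g' r := by
      ext x
      rw [mem_filter, mem_filter, mem_reachSet]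
      constructor
      · rintro ⟨_, h⟩; exact h
      · intro h
        refine ⟨⟨mem_univ _, ?_⟩, h⟩
        intro h'
        exact hr'.1 (reach_unique hgr hgu h h')
    rw [h3, smul_eq_mul, smul_eq_mul]
    rw [← h2]; ring

/-- Number of rooted forests with given root set `Wᶜ`. -/
lemma card_acyc (W : Finset X) :
    Fintype.card X * (acyc W).card = (Fintype.card X - W.card) * Fintype.card X ^ W.card := by
  classical
  have h1 : ∑ r ∈ Wᶜ, ∑ g ∈ acyc W, (reachSet g r).card =
      (Fintype.card X - W.card) * Fintype.card X ^ W.card := by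
    rw [sum_congr rfl (fun r hr => sum_reach W r (by simpa using hr)), sum_const, card_compl,
      smul_eq_mul]
  rw [← h1, sum_comm]
  have h2 : ∀ g ∈ acyc W, ∑ r ∈ Wᶜ, (reachSet g r).card = Fintype.card X := by
    intro g hg
    have hg' := mem_acyc.mp hg
    rw [← card_biUnion]
    · rw [← card_univ]
      congr 1
      ext x
      rw [mem_biUnion]
      simp only [mem_univ, iff_true]
      obtain ⟨n, hn⟩ := hg'.2 x
      exact ⟨g^[n] x, by simpa using hn, mem_reachSet.mpr ⟨n, rfl⟩⟩
    · intro r hr r' hr' hne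
      rw [Function.onFun, disjoint_left]
      intro x hx hx'
      rw [mem_reachSet] at hx hx'
      apply hne
      exact reach_unique (hg'.1 r (by simpa using hr)) (hg'.1 r' (by simpa using hr')) hx hx'
  rw [sum_congr rfl h2, sum_const, smul_eq_mul, mul_comm]

end Forest

end Pool.Agent.Helper87.DML
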