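import Mathlib
import Pool.Agent.Helper87.DML.Forest

set_option autoImplicit false

namespace Pool.Agent.Helper87.DML

open Finset Function

section Count

variable {X : Type} [Fintype X] [DecidableEq X]

/-- `x` lies on a cycle of `f`. -/
def IsCyc {X : Type} (f : X → X) (x : X) : Prop := ∃ n : ℕ, 0 < n ∧ f^[n] x = x

/-- The set of cyclic points. -/
noncomputable def cyc (f : X → X) : Finset X := by
  classical
  exact univ.filter (fun x => IsCyc f x)

omit [DecidableEq X] in
lemma mem_cyc {f : X → X} {x : X} : x ∈ cyc f ↔ IsCyc f x := by simp [cyc]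

/-- Glue a permutation of `S` with a function off `S`. -/
def glue (S : Finset X) (s : Equiv.Perm S) (g : X → X) : X → X :=
  fun x => if h : x ∈ S then (s ⟨x, h⟩ : X) else g x

omit [Fintype X] in
lemma glue_iterate_mem (S : Finset X) (s : Equiv.Perm S) (g : X → X) (x : S) (n : ℕ) :
    (glue S s g)^[n] (x : X) = ((s ^ n) x : S) := by
  induction n with
  | zero => simp
  | succ n ih =>
    rw [iterate_succ_apply', ih, pow_succ', Equiv.Perm.mul_apply]
    simp [glue]

lemma cyc_glue (S : Finset X) (s : Equiv.Perm S) (g : X → X) (hg : g ∈ acyc Sᶜ) :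
    cyc (glue S s g) = S := by
  classical
  ext x
  rw [mem_cyc]
  constructor
  · rintro ⟨n, hn, hx⟩
    by_contra hxS
    have h2 := (mem_acyc.mp hg).2 x
    have hm := Nat.find_spec h2
    have hmin := fun j (hj : j < Nat.find h2) => Nat.find_min h2 hj
    set m := Nat.find h2 with hmdef
    have h3 : ∀ j ≤ m, (glue S s g)^[j] x = g^[j] x := by
      intro j
      induction j with
      | zero => intro _; rfl
      | succ j ih =>
        intro hj
        rw [iterate_succ_apply', iterate_succ_apply', ih (by omega)]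
        have h4 := hmin j (by omega)
        rw [not_not, mem_compl] at h4
        simp [glue, h4]
    have h5 : (glue S s g)^[m] x ∈ S := by
      rw [h3 m le_rfl]
      simpa using hm
    have h6 : ∀ k, (glue S s g)^[k + m] x ∈ S := by
      intro k
      rw [iterate_add_apply]
      have := glue_iterate_mem S s g ⟨_, h5⟩ k
      simp only at this
      rw [this]
      exact Subtype.coe_prop _
    have h7 : (glue S s g)^[n * (m + 1)] x = x := by
      rw [iterate_mul]
      exact iterate_fixed hx (m + 1)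
    have h8 : n * (m + 1) = (n * (m + 1) - m) + m := by
      have : m + 1 ≤ n * (m + 1) := Nat.le_mul_of_pos_left _ hn
      omega
    have h9 := h6 (n * (m + 1) - m)
    rw [← h8, h7] at h9
    exact hxS h9
  · intro hx
    refine ⟨orderOf s, orderOf_pos s, ?_⟩
    have := glue_iterate_mem S s g ⟨x, hx⟩ (orderOf s)
    simp only [pow_orderOf_eq_one] at this
    simpa using this

lemma glue_injOn (S : Finset X) : Set.InjOn (fun sg : Equiv.Perm S × (X → X) => glue S sg.1 sg.2)
    {sg | sg.2 ∈ acyc Sᶜ} := by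
  rintro ⟨s, g⟩ hg ⟨s', g'⟩ hg' h
  simp only [Set.mem_ofPred_eq] at hg hg'
  have h1 : s = s' := by
    ext x
    have := congrFun h (x : X)
    simpa [glue] using this
  have h2 : g = g' := by
    funext x
    by_cases hx : x ∈ S
    · rw [(mem_acyc.mp hg).1 x (by simpa using hx), (mem_acyc.mp hg').1 x (by simpa using hx)]
    · have := congrFun h x
      simpa [glue, hx] using this
  rw [h1, h2]

lemma card_cyc_ge (S : Finset X) :
    S.card.factorial * (acyc Sᶜ).card ≤ (univ.filter (fun f : X → X => cyc f = S)).card := by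
  classical
  have h1 : ((univ : Finset (Equiv.Perm S)) ×ˢ acyc Sᶜ).card = S.card.factorial * (acyc Sᶜ).card := by
    rw [card_product, card_univ, Fintype.card_perm, Fintype.card_coe]
  rw [← h1]
  apply card_le_card_of_injOn (fun sg => glue S sg.1 sg.2)
  · intro sg hsg
    rw [mem_coe, mem_product] at hsg
    rw [mem_coe, mem_filter]
    exact ⟨mem_univ _, cyc_glue S sg.1 sg.2 hsg.2⟩
  · intro sg hsg sg' hsg' h
    rw [mem_coe, mem_product] at hsg hsg'
    exact glue_injOn S hsg.2 hsg'.2 h

variable {Y : Type} [Fintype Y] [DecidableEq Y]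

/-- Pairs of a self-map `f` and a labelling `D` all of whose cyclic points have labels in `U`. -/
noncomputable def goodPairs (X Y : Type) [Fintype X] [DecidableEq X] [Fintype Y] [DecidableEq Y]
    (U : Finset Y) : Finset ((X → X) × (X → Y)) := by
  classical
  exact univ.filter (fun fD => ∀ x, IsCyc fD.1 x → fD.2 x ∈ U)

lemma card_labels (U : Finset Y) (S : Finset X) :
    (univ.filter (fun D : X → Y => ∀ x ∈ S, D x ∈ U)).card =
      U.card ^ S.card * Fintype.card Y ^ (Fintype.card X - S.card) := by
  classical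
  have h1 : univ.filter (fun D : X → Y => ∀ x ∈ S, D x ∈ U) =
      Fintype.piFinset (fun x => if x ∈ S then U else univ) := by
    ext D
    rw [mem_filter, Fintype.mem_piFinset]
    simp only [mem_univ, true_and]
    constructor
    · intro h x
      by_cases hx : x ∈ S
      · simpa [hx] using h x hx
      · simp [hx]
    · intro h x hx
      simpa [hx] using h x
  rw [h1, Fintype.card_piFinset]
  have h2 : ∀ x, (if x ∈ S then U else (univ : Finset Y)).card =
      if x ∈ S then U.card else Fintype.card Y := by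
    intro x; split_ifs <;> simp
  rw [prod_congr rfl (fun x _ => h2 x), prod_ite, prod_const, prod_const]
  congr 2
  · congr 1; ext x; simp
  · have : univ.filter (fun x => x ∉ S) = Sᶜ := by ext x; simp
    rw [this, card_compl]

lemma card_goodPairs_ge (U : Finset Y) (K : ℕ) :
    ∑ k ∈ Icc 1 K, (Fintype.card X).choose k * (k.factorial *
      ((k * Fintype.card X ^ (Fintype.card X - k)) *
        (U.card ^ k * Fintype.card Y ^ (Fintype.card X - k)))) ≤
    Fintype.card X * (goodPairs X Y U).card := by
  classical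
  set M := Fintype.card X with hM
  have h1 : (goodPairs X Y U).card =
      ∑ f : X → X, (univ.filter (fun D : X → Y => ∀ x ∈ cyc f, D x ∈ U)).card := by
    rw [goodPairs, card_filter, Fintype.sum_prod_type]
    apply sum_congr rfl
    intro f _
    rw [card_filter]
    apply sum_congr rfl
    intro D _
    simp only [mem_cyc]
  have h2 : (goodPairs X Y U).card =
      ∑ S : Finset X, (univ.filter (fun f : X → X => cyc f = S)).card *
        (U.card ^ S.card * Fintype.card Y ^ (M - S.card)) := by
    rw [h1, ← sum_fiberwise_of_maps_to (s := univ) (t := univ) (g := fun f : X → X => cyc f)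
      (fun _ _ => mem_univ _)]
    apply sum_congr rfl
    intro S _
    rw [sum_congr rfl (g := fun _ => U.card ^ S.card * Fintype.card Y ^ (M - S.card))]
    · rw [sum_const, smul_eq_mul]
    · intro f hf
      rw [mem_filter] at hf
      rw [hf.2, card_labels, hM]
  rw [h2, mul_sum]
  have h3 : ∑ k ∈ Icc 1 K, ∑ S ∈ powersetCard k (univ : Finset X),
      M * ((univ.filter (fun f : X → X => cyc f = S)).card *
        (U.card ^ S.card * Fintype.card Y ^ (M - S.card))) ≤
      ∑ S : Finset X, M * ((univ.filter (fun f : X → X => cyc f = S)).card *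
        (U.card ^ S.card * Fintype.card Y ^ (M - S.card))) := by
    rw [← sum_biUnion]
    · apply sum_le_sum_of_subset
      exact subset_univ _
    · intro i _ j _ hij
      rw [Function.onFun, disjoint_left]
      intro S hS hS'
      rw [mem_powersetCard] at hS hS'
      exact hij (hS.2.symm.trans hS'.2)
  refine le_trans ?_ h3
  apply sum_le_sum
  intro k _
  have h4 : ∀ S ∈ powersetCard k (univ : Finset X),
      k.factorial * ((k * M ^ (M - k)) * (U.card ^ k * Fintype.card Y ^ (M - k))) ≤
      M * ((univ.filter (fun f : X → X => cyc f = S)).card *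
        (U.card ^ S.card * Fintype.card Y ^ (M - S.card))) := by
    intro S hS
    rw [mem_powersetCard] at hS
    have hk : S.card = k := hS.2
    have hkM : k ≤ M := by rw [← hk, hM]; exact card_le_univ S
    have h5 := card_cyc_ge S
    have h6 := card_acyc (X := X) Sᶜ
    rw [card_compl, hk, ← hM] at h6
    rw [hk] at h5
    have h7 : M - (M - k) = k := by omega
    rw [h7] at h6
    rw [hk]
    calc k.factorial * ((k * M ^ (M - k)) * (U.card ^ k * Fintype.card Y ^ (M - k)))
        = (k.factorial * (M * (acyc Sᶜ).card)) * (U.card ^ k * Fintype.card Y ^ (M - k)) := by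
          rw [h6]; ring
      _ = M * ((k.factorial * (acyc Sᶜ).card) * (U.card ^ k * Fintype.card Y ^ (M - k))) := by ring
      _ ≤ M * ((univ.filter (fun f : X → X => cyc f = S)).card *
          (U.card ^ k * Fintype.card Y ^ (M - k))) := by
          apply Nat.mul_le_mul_left
          exact Nat.mul_le_mul_right _ h5
  calc M.choose k * (k.factorial * ((k * M ^ (M - k)) * (U.card ^ k * Fintype.card Y ^ (M - k))))
      = ∑ S ∈ powersetCard k (univ : Finset X),
        k.factorial * ((k * M ^ (M - k)) * (U.card ^ k * Fintype.card Y ^ (M - k))) := by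
        rw [sum_const, card_powersetCard, card_univ, smul_eq_mul]
    _ ≤ _ := sum_le_sum h4

/-- Lower bound for the probability that all cyclic points of a random self-map carry good labels. -/
lemma prob_goodPairs_ge (U : Finset Y) (K : ℕ) (θ : ℝ) (hθ : 0 ≤ θ)
    (hX : 0 < Fintype.card X) (hY : 0 < Fintype.card Y)
    (hK : 2 * (K : ℝ) ^ 2 ≤ Fintype.card X)
    (hU : (1 - θ) * Fintype.card Y ≤ U.card) (hKθ : (K : ℝ) * θ ≤ 1 / 2) :
    (K : ℝ) ^ 2 / (8 * Fintype.card X) *
      ((Fintype.card X : ℝ) ^ (Fintype.card X) * (Fintype.card Y : ℝ) ^ (Fintype.card X)) ≤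
      (goodPairs X Y U).card := by
  set M := Fintype.card X with hM
  set q := Fintype.card Y with hq
  have hMr : (0 : ℝ) < M := by exact_mod_cast hX
  have hqr : (0 : ℝ) < q := by exact_mod_cast hY
  have h0 := card_goodPairs_ge (X := X) (Y := Y) U K
  rw [← hM, ← hq] at h0
  have h0' : ∑ k ∈ Icc 1 K, (M.choose k : ℝ) * (k.factorial *
      ((k * (M : ℝ) ^ (M - k)) * ((U.card : ℝ) ^ k * (q : ℝ) ^ (M - k)))) ≤
      M * (goodPairs X Y U).card := by exact_mod_cast h0
  have hterm : ∀ k ∈ Icc 1 K, (k : ℝ) * (1 / 4 * ((M : ℝ) ^ M * (q : ℝ) ^ M)) ≤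
      (M.choose k : ℝ) * (k.factorial *
      ((k * (M : ℝ) ^ (M - k)) * ((U.card : ℝ) ^ k * (q : ℝ) ^ (M - k)))) := by
    intro k hk
    rw [mem_Icc] at hk
    have hkK : (k : ℝ) ≤ K := by exact_mod_cast hk.2
    have hk1 : (1 : ℝ) ≤ k := by exact_mod_cast hk.1
    have hkM' : (k : ℝ) ≤ M := by nlinarith
    have hkM : k ≤ M := by exact_mod_cast hkM'
    -- descending factorial
    have h1 : ((M : ℝ) - k) ^ k ≤ (M.choose k : ℝ) * k.factorial := by
      have h2 : (M - k) ^ k ≤ M.descFactorial k :=
        le_trans (Nat.pow_le_pow_left (by omega) k) (Nat.pow_sub_le_descFactorial M k)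
      rw [Nat.descFactorial_eq_factorial_mul_choose] at h2
      have h3 : (((M - k : ℕ) : ℝ)) ^ k ≤ (k.factorial : ℝ) * M.choose k := by exact_mod_cast h2
      rw [Nat.cast_sub hkM] at h3
      linarith
    have h2 : (1 / 2 : ℝ) * (M : ℝ) ^ k ≤ ((M : ℝ) - k) ^ k := by
      have h3 : ((M : ℝ) - k) = M * (1 + (-(k / M))) := by field_simp; ring
      rw [h3, mul_pow]
      have h4 : 1 + (k : ℝ) * (-(k / M)) ≤ (1 + (-(k / M : ℝ))) ^ k := by
        apply one_add_mul_le_pow
        have : (k : ℝ) / M ≤ 1 := by rw [div_le_one hMr]; exact hkM'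
        linarith
      have h5 : (1 / 2 : ℝ) ≤ 1 + (k : ℝ) * (-(k / M)) := by
        have : (k : ℝ) * (k / M) ≤ 1 / 2 := by
          rw [← mul_div_assoc, div_le_iff₀ hMr]
          nlinarith
        linarith
      have h6 : (0 : ℝ) < (M : ℝ) ^ k := pow_pos hMr k
      nlinarith
    have h3 : (1 / 2 : ℝ) * (q : ℝ) ^ k ≤ (U.card : ℝ) ^ k := by
      have h4 : 1 + (k : ℝ) * (-θ) ≤ (1 + (-θ)) ^ k := by
        apply one_add_mul_le_pow
        nlinarith
      have h5 : (1 / 2 : ℝ) ≤ 1 + (k : ℝ) * (-θ) := by nlinarith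
      have h6 : (0 : ℝ) ≤ (1 + -θ) := by nlinarith
      have h7 : ((1 + -θ) * (q : ℝ)) ^ k ≤ (U.card : ℝ) ^ k := by
        apply pow_le_pow_left₀ (mul_nonneg h6 hqr.le)
        linarith
      rw [mul_pow] at h7
      have h8 : (0 : ℝ) < (q : ℝ) ^ k := pow_pos hqr k
      nlinarith
    have hMk : (M : ℝ) ^ M = (M : ℝ) ^ k * (M : ℝ) ^ (M - k) := by
      rw [← pow_add]; congr 1; omega
    have hqk : (q : ℝ) ^ M = (q : ℝ) ^ k * (q : ℝ) ^ (M - k) := by
      rw [← pow_add]; congr 1; omega
    have h9 : (1 / 2 : ℝ) * (M : ℝ) ^ k ≤ (M.choose k : ℝ) * k.factorial := h2.trans h1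
    calc (k : ℝ) * (1 / 4 * ((M : ℝ) ^ M * (q : ℝ) ^ M))
        = (k * ((M : ℝ) ^ (M - k) * (q : ℝ) ^ (M - k))) *
          (((1 / 2 : ℝ) * (M : ℝ) ^ k) * ((1 / 2 : ℝ) * (q : ℝ) ^ k)) := by
          rw [hMk, hqk]; ring
      _ ≤ (k * ((M : ℝ) ^ (M - k) * (q : ℝ) ^ (M - k))) *
          (((M.choose k : ℝ) * k.factorial) * ((U.card : ℝ) ^ k)) := by
          apply mul_le_mul_of_nonneg_left
          · apply mul_le_mul h9 h3 (by positivity) (by positivity)
          · positivity
      _ = _ := by ring
  have hsum : (∑ k ∈ Icc 1 K, (k : ℝ)) * (1 / 4 * ((M : ℝ) ^ M * (q : ℝ) ^ M)) ≤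
      M * (goodPairs X Y U).card := by
    rw [sum_mul]
    exact (sum_le_sum hterm).trans h0'
  have hgauss : (K : ℝ) ^ 2 / 2 ≤ ∑ k ∈ Icc 1 K, (k : ℝ) := by
    clear hterm hsum h0 h0' hK hKθ
    induction K with
    | zero => simp
    | succ K ih =>
      rw [sum_Icc_succ_top (by omega)]
      push_cast
      nlinarith
  have hpos : (0 : ℝ) ≤ (1 / 4 * ((M : ℝ) ^ M * (q : ℝ) ^ M)) := by positivity
  have h10 : (K : ℝ) ^ 2 / 2 * (1 / 4 * ((M : ℝ) ^ M * (q : ℝ) ^ M)) ≤ M * (goodPairs X Y U).card :=
    (mul_le_mul_of_nonneg_right hgauss hpos).trans hsum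
  rw [div_mul_eq_mul_div, div_le_iff₀ (by positivity)]
  nlinarith

end Count

end Pool.Agent.Helper87.DML
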