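import Mathlib
import Pool.Agent.Helper87.DML.Hansel

set_option autoImplicit false

namespace Pool.Agent.Helper87.DML

open MvPolynomial

variable {σ : Type} [Fintype σ] [DecidableEq σ]

/-- The self-map of `ℤ^σ` given by a tuple of integer polynomials. -/
noncomputable def evalMap (Φ : σ → MvPolynomial σ ℤ) (x : σ → ℤ) : σ → ℤ :=
  fun i => MvPolynomial.eval x (Φ i)

omit [Fintype σ] [DecidableEq σ] in
lemma eval_bind (ψ : σ → MvPolynomial σ ℤ) (G : MvPolynomial σ ℤ) (y : σ → ℤ) :
    eval y (bind₁ ψ G) = eval (evalMap ψ y) G := by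
  exact MvPolynomial.eval₂Hom_bind₁ (RingHom.id ℤ) y ψ G

omit [Fintype σ] [DecidableEq σ] in
lemma eval_iterate_bind (ψ : σ → MvPolynomial σ ℤ) (G : MvPolynomial σ ℤ) (n : ℕ) (y : σ → ℤ) :
    eval y ((((bind₁ ψ).toLinearMap : Module.End ℤ (MvPolynomial σ ℤ)) ^ n) G) =
      eval ((evalMap ψ)^[n] y) G := by
  induction n generalizing y with
  | zero => simp
  | succ n ih =>
    rw [pow_succ', Module.End.mul_apply, Function.iterate_succ_apply, ← ih]
    simp only [AlgHom.toLinearMap_apply]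
    rw [eval_bind]

omit [Fintype σ] [DecidableEq σ] in
lemma diff_dvd (p : ℕ) (ψ : σ → MvPolynomial σ ℤ)
    (hψ : ∀ i, map (Int.castRingHom (ZMod p)) (ψ i) = X i) (G : MvPolynomial σ ℤ) :
    C (p : ℤ) ∣ bind₁ ψ G - G := by
  rw [C_dvd_iff_zmod, map_sub, map_bind₁, sub_eq_zero]
  have : (fun i => map (Int.castRingHom (ZMod p)) (ψ i)) = X := funext hψ
  rw [this]
  simp

omit [Fintype σ] [DecidableEq σ] in
lemma interp (p : ℕ) (ψ : σ → MvPolynomial σ ℤ)
    (hψ : ∀ i, map (Int.castRingHom (ZMod p)) (ψ i) = X i) (G : MvPolynomial σ ℤ)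
    (y : σ → ℤ) : ∃ d : ℕ → ℤ, ∀ n, eval ((evalMap ψ)^[n] y) G =
      ∑ i ∈ Finset.range (n + 1), (n.choose i : ℤ) * (p : ℤ) ^ i * d i := by
  set S : Module.End ℤ (MvPolynomial σ ℤ) := (bind₁ ψ).toLinearMap with hS
  set T : Module.End ℤ (MvPolynomial σ ℤ) := S - 1 with hT
  have hTi : ∀ i : ℕ, ∃ H : MvPolynomial σ ℤ, (T ^ i) G = C ((p : ℤ) ^ i) * H := by
    intro i
    induction i with
    | zero => exact ⟨G, by simp⟩
    | succ i ih =>
      obtain ⟨H, hH⟩ := ih
      obtain ⟨H', hH'⟩ := diff_dvd p ψ hψ H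
      refine ⟨H', ?_⟩
      rw [pow_succ', Module.End.mul_apply, hH]
      have : T (C ((p : ℤ) ^ i) * H) = C ((p : ℤ) ^ i) * (bind₁ ψ H - H) := by
        rw [hT, LinearMap.sub_apply, hS]
        simp only [AlgHom.toLinearMap_apply, map_mul, Module.End.one_apply]
        rw [show (bind₁ ψ) (C ((p : ℤ) ^ i)) = C ((p : ℤ) ^ i) from by simp]
        ring
      rw [this, hH', ← mul_assoc, ← C_mul, pow_succ]
  choose H hH using hTi
  refine ⟨fun i => eval y (H i), fun n => ?_⟩
  rw [← eval_iterate_bind, ← hS]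
  have h1 : S = T + 1 := by rw [hT]; abel
  rw [h1, (Commute.one_right T).add_pow]
  simp only [one_pow, mul_one]
  rw [LinearMap.sum_apply, map_sum]
  apply Finset.sum_congr rfl
  intro m _
  have h2 : (T ^ m * (n.choose m : Module.End ℤ (MvPolynomial σ ℤ))) G
      = (n.choose m : ℤ) • (T ^ m) G := by
    rw [Module.End.mul_apply]
    have : ((n.choose m : Module.End ℤ (MvPolynomial σ ℤ))) G = (n.choose m : ℤ) • G := by
      rw [Module.End.natCast_apply]; simp
    rw [this, map_smul]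
  rw [h2, hH, smul_eval]
  simp only [map_mul, eval_C]
  ring

omit [Fintype σ] [DecidableEq σ] in
/-- The dichotomy for iterates of a polynomial map congruent to the identity. -/
lemma zeros_dichotomy (p : ℕ) [Fact p.Prime] (hp3 : 3 ≤ p) (ψ : σ → MvPolynomial σ ℤ)
    (hψ : ∀ i, map (Int.castRingHom (ZMod p)) (ψ i) = X i) (G : MvPolynomial σ ℤ)
    (y : σ → ℤ) : {k : ℕ | eval ((evalMap ψ)^[k] y) G = 0}.Finite ∨
      ∀ k, eval ((evalMap ψ)^[k] y) G = 0 := by
  by_cases h : {k : ℕ | eval ((evalMap ψ)^[k] y) G = 0}.Finite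
  · exact Or.inl h
  · right
    obtain ⟨d, hd⟩ := interp p ψ hψ G y
    exact hansel p hp3 d (fun k => eval ((evalMap ψ)^[k] y) G) hd h

/-- First order Taylor expansion on the disc `x + p y`. -/
lemma taylor (p : ℤ) (x : σ → ℤ) (F : MvPolynomial σ ℤ) :
    ∃ R : MvPolynomial σ ℤ, bind₁ (fun j => C (x j) + C p * X j) F =
      C (eval x F) + C p * (∑ j, C (eval x (pderiv j F)) * X j + C p * R) := by
  induction F using MvPolynomial.induction_on with
  | C a =>
    refine ⟨0, ?_⟩
    simp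
  | add F G hF hG =>
    obtain ⟨R, hR⟩ := hF
    obtain ⟨R', hR'⟩ := hG
    refine ⟨R + R', ?_⟩
    rw [map_add, hR, hR']
    simp only [map_add, add_mul, Finset.sum_add_distrib]
    ring
  | mul_X F i hF =>
    obtain ⟨R, hR⟩ := hF
    refine ⟨R * (C (x i) + C p * X i) + (∑ j, C (eval x (pderiv j F)) * X j) * X i, ?_⟩
    rw [map_mul, hR, bind₁_X_right]
    have h1 : ∑ j, C (eval x (pderiv j (F * X i))) * X j =
        C (x i) * (∑ j, C (eval x (pderiv j F)) * X j) + C (eval x F) * (X i : MvPolynomial σ ℤ) := by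
      have : ∀ j, C (eval x (pderiv j (F * X i))) * (X j : MvPolynomial σ ℤ) =
          C (x i) * (C (eval x (pderiv j F)) * X j) +
            (if i = j then C (eval x F) * (X i : MvPolynomial σ ℤ) else 0) := by
        intro j
        rw [Derivation.leibniz]
        simp only [pderiv_X, smul_eq_mul, map_add, map_mul, eval_X]
        by_cases hij : i = j
        · subst hij
          simp
          ring
        · rw [Pi.single_eq_of_ne hij]
          simp [hij]
          ring
      rw [Finset.sum_congr rfl (fun j _ => this j), Finset.sum_add_distrib, Finset.mul_sum]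
      simp
    rw [h1]
    simp only [map_mul, eval_X]
    ring

/-- A polynomial map whose reduction mod `p` is an invertible affine map. -/
def AffInv (p : ℕ) (h : σ → MvPolynomial σ ℤ) : Prop :=
  ∃ (A : Matrix σ σ (ZMod p)) (b : σ → ZMod p), IsUnit A ∧
    ∀ i, map (Int.castRingHom (ZMod p)) (h i) = C (b i) + ∑ j, C (A i j) * X j

lemma AffInv.comp {p : ℕ} {h h' : σ → MvPolynomial σ ℤ} (H : AffInv p h) (H' : AffInv p h') :
    AffInv p (fun i => bind₁ h' (h i)) := by
  obtain ⟨A, b, hA, hh⟩ := H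
  obtain ⟨A', b', hA', hh'⟩ := H'
  refine ⟨A * A', A.mulVec b' + b, hA.mul hA', fun i => ?_⟩
  rw [map_bind₁, hh i]
  simp only [map_add, map_sum, map_mul, bind₁_X_right, algHom_C, algebraMap_eq]
  simp only [hh']
  simp only [mul_add, Finset.sum_add_distrib, Pi.add_apply, map_add]
  have h1 : ∑ x, C (A i x) * C (b' x) = (C (A.mulVec b' i) : MvPolynomial σ (ZMod p)) := by
    simp [Matrix.mulVec, dotProduct, map_sum]
  have h2 : ∑ x, C (A i x) * ∑ j, C (A' x j) * X j =
      ∑ j, (C ((A * A') i j) : MvPolynomial σ (ZMod p)) * X j := by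
    simp only [Finset.mul_sum]
    rw [Finset.sum_comm]
    apply Finset.sum_congr rfl
    intro j _
    rw [Matrix.mul_apply, map_sum, Finset.sum_mul]
    apply Finset.sum_congr rfl
    intro x _
    rw [C_mul]; ring
  rw [h1, h2]
  ring

lemma AffInv.add_const {p : ℕ} {h : σ → MvPolynomial σ ℤ} (H : AffInv p h) (w : σ → ℤ) :
    AffInv p (fun i => C (w i) + h i) := by
  obtain ⟨A, b, hA, hh⟩ := H
  refine ⟨A, fun i => (w i : ZMod p) + b i, hA, fun i => ?_⟩
  rw [map_add, hh i, map_C, map_add]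
  simp only [eq_intCast]
  ring

lemma AffInv.id (p : ℕ) : AffInv p (X : σ → MvPolynomial σ ℤ) := by
  refine ⟨1, 0, isUnit_one, fun i => ?_⟩
  simp [Matrix.one_apply]

/-- Iterated composition of polynomial maps. -/
noncomputable def polyIter (h : σ → MvPolynomial σ ℤ) : ℕ → (σ → MvPolynomial σ ℤ)
  | 0 => X
  | (m + 1) => fun i => bind₁ (polyIter h m) (h i)

omit [Fintype σ] [DecidableEq σ] in
lemma evalMap_comp (h h' : σ → MvPolynomial σ ℤ) (y : σ → ℤ) :
    evalMap (fun i => bind₁ h' (h i)) y = evalMap h (evalMap h' y) := by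
  funext i
  simp only [evalMap, eval_bind]

omit [Fintype σ] [DecidableEq σ] in
lemma evalMap_polyIter (h : σ → MvPolynomial σ ℤ) (m : ℕ) (y : σ → ℤ) :
    evalMap (polyIter h m) y = (evalMap h)^[m] y := by
  induction m with
  | zero => funext i; simp [polyIter, evalMap]
  | succ m ih =>
    rw [Function.iterate_succ_apply', ← ih]
    exact evalMap_comp h (polyIter h m) y

/-- Uniform exponent killing all invertible affine maps over `ZMod p`. -/
noncomputable def affExp (p : ℕ) [Fact p.Prime] (σ : Type) [Fintype σ] [DecidableEq σ] : ℕ :=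
  Fintype.card (Matrix σ σ (ZMod p))ˣ * p

lemma affExp_pos (p : ℕ) [hp : Fact p.Prime] : 0 < affExp p σ :=
  Nat.mul_pos Fintype.card_pos hp.out.pos

lemma map_polyIter {p : ℕ} {h : σ → MvPolynomial σ ℤ} {A : Matrix σ σ (ZMod p)} {b : σ → ZMod p}
    (hh : ∀ i, map (Int.castRingHom (ZMod p)) (h i) = C (b i) + ∑ j, C (A i j) * X j) (m : ℕ) :
    ∀ i, map (Int.castRingHom (ZMod p)) (polyIter h m i) =
      C ((∑ l ∈ Finset.range m, (A ^ l).mulVec b) i) + ∑ j, C ((A ^ m) i j) * X j := by
  induction m with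
  | zero =>
    intro i
    simp [polyIter, Matrix.one_apply]
  | succ m ih =>
    intro i
    rw [polyIter, map_bind₁, hh i]
    simp only [map_add, map_sum, map_mul, bind₁_X_right, algHom_C, algebraMap_eq]
    simp only [ih]
    simp only [mul_add, Finset.sum_add_distrib]
    have h1 : ∑ x, C (A i x) * C ((∑ l ∈ Finset.range m, (A ^ l).mulVec b) x) =
        (C (A.mulVec (∑ l ∈ Finset.range m, (A ^ l).mulVec b) i) : MvPolynomial σ (ZMod p)) := by
      simp [Matrix.mulVec, dotProduct, map_sum]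
    have h2 : ∑ x, C (A i x) * ∑ j, C ((A ^ m) x j) * X j =
        ∑ j, (C ((A ^ (m + 1)) i j) : MvPolynomial σ (ZMod p)) * X j := by
      simp only [Finset.mul_sum]
      rw [Finset.sum_comm]
      apply Finset.sum_congr rfl
      intro j _
      rw [pow_succ', Matrix.mul_apply, map_sum, Finset.sum_mul]
      apply Finset.sum_congr rfl
      intro x _
      rw [C_mul]; ring
    rw [h1, h2, ← add_assoc, ← C_add]
    congr 2
    rw [Finset.sum_range_succ', Pi.add_apply]
    simp only [pow_zero, Matrix.one_mulVec]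
    rw [Matrix.mulVec_sum]
    simp only [Matrix.mulVec_mulVec, ← pow_succ']
    ring

lemma polyIter_affExp {p : ℕ} [hp : Fact p.Prime] {h : σ → MvPolynomial σ ℤ} (H : AffInv p h) :
    ∀ i, map (Int.castRingHom (ZMod p)) (polyIter h (affExp p σ) i) = X i := by
  obtain ⟨A, b, hA, hh⟩ := H
  intro i
  rw [map_polyIter hh]
  obtain ⟨u, rfl⟩ := hA
  set g := Fintype.card (Matrix σ σ (ZMod p))ˣ with hg
  have hug : (u : Matrix σ σ (ZMod p)) ^ g = 1 := by
    rw [← Units.val_pow_eq_pow_val, hg, pow_card_eq_one]; rfl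
  have h1 : (u : Matrix σ σ (ZMod p)) ^ (affExp p σ) = 1 := by
    rw [affExp, ← hg, pow_mul, hug, one_pow]
  have h2 : ∀ q : ℕ, ∑ l ∈ Finset.range (g * q), ((u : Matrix σ σ (ZMod p)) ^ l).mulVec b =
      q • ∑ l ∈ Finset.range g, ((u : Matrix σ σ (ZMod p)) ^ l).mulVec b := by
    intro q
    induction q with
    | zero => simp
    | succ q ih =>
      rw [Nat.mul_succ, Finset.sum_range_add, ih, succ_nsmul]
      congr 1
      apply Finset.sum_congr rfl
      intro l _
      rw [pow_add, pow_mul, hug, one_pow, one_mul]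
  have h3 : ∑ l ∈ Finset.range (affExp p σ), ((u : Matrix σ σ (ZMod p)) ^ l).mulVec b = 0 := by
    rw [affExp, ← hg, h2 p]
    funext i
    rw [Pi.smul_apply, Pi.zero_apply, nsmul_eq_mul, CharP.cast_eq_zero, zero_mul]
  rw [h1, h3]
  simp [Matrix.one_apply]

end Pool.Agent.Helper87.DML
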