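import Mathlib
import Pool.Agent.Helper87.DML.Disc

set_option autoImplicit false

namespace Pool.Agent.Helper87.DML

open MvPolynomial

variable {σ : Type} [Fintype σ] [DecidableEq σ]

/-- The Jacobian matrix mod `p` of an integer polynomial map at an integer point. -/
noncomputable def jacMod (p : ℕ) (Φ : σ → MvPolynomial σ ℤ) (x : σ → ℤ) : Matrix σ σ (ZMod p) :=
  Matrix.of fun i j => ((eval x (pderiv j (Φ i)) : ℤ) : ZMod p)

omit [Fintype σ] [DecidableEq σ] in
lemma eval_disc (p : ℤ) (x y : σ → ℤ) (G : MvPolynomial σ ℤ) :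
    eval (fun i => x i + p * y i) G = eval y (bind₁ (fun j => C (x j) + C p * X j) G) := by
  rw [eval_bind]
  congr 1
  congr 1
  funext i
  simp [evalMap]

lemma disc_step (p : ℕ) (Φ : σ → MvPolynomial σ ℤ) (x : σ → ℤ) (hJ : IsUnit (jacMod p Φ x)) :
    ∃ h : σ → MvPolynomial σ ℤ, AffInv p h ∧
      ∀ y : σ → ℤ, evalMap Φ (fun i => x i + p * y i) = fun i => evalMap Φ x i + p * evalMap h y i := by
  have ht := fun i => taylor (p : ℤ) x (Φ i)
  choose R hR using ht
  refine ⟨fun i => ∑ j, C (eval x (pderiv j (Φ i))) * X j + C (p : ℤ) * R i, ?_, ?_⟩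
  · refine ⟨jacMod p Φ x, 0, hJ, fun i => ?_⟩
    simp only [map_add, map_sum, map_mul, map_X, jacMod, Matrix.of_apply, eq_intCast,
      Pi.zero_apply, C_0, zero_add]
    simp
  · intro y
    funext i
    simp only [evalMap]
    rw [eval_disc, hR i]
    simp

lemma disc_iter (p : ℕ) (Φ : σ → MvPolynomial σ ℤ) (L : ℕ) (x : σ → ℤ)
    (hJ : ∀ m < L, IsUnit (jacMod p Φ ((evalMap Φ)^[m] x))) :
    ∃ h : σ → MvPolynomial σ ℤ, AffInv p h ∧
      ∀ y : σ → ℤ, (evalMap Φ)^[L] (fun i => x i + p * y i) =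
        fun i => (evalMap Φ)^[L] x i + p * evalMap h y i := by
  induction L with
  | zero =>
    refine ⟨X, AffInv.id p, fun y => ?_⟩
    funext i
    simp [evalMap]
  | succ L ih =>
    obtain ⟨h, hh, hy⟩ := ih (fun m hm => hJ m (by omega))
    obtain ⟨h', hh', hy'⟩ := disc_step p Φ ((evalMap Φ)^[L] x) (hJ L (by omega))
    refine ⟨fun i => bind₁ h (h' i), hh'.comp hh, fun y => ?_⟩
    rw [Function.iterate_succ_apply', hy y, hy', evalMap_comp, Function.iterate_succ_apply']

/-- Along a cycle mod `p` avoiding the critical locus, the orbit is given by iterating a polynomial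
map congruent to the identity. -/
lemma cycle_interp (p : ℕ) [Fact p.Prime] (Φ : σ → MvPolynomial σ ℤ) (L : ℕ) (x : σ → ℤ)
    (hJ : ∀ m < L, IsUnit (jacMod p Φ ((evalMap Φ)^[m] x)))
    (hcyc : ∀ i, (((evalMap Φ)^[L] x i : ℤ) : ZMod p) = (x i : ZMod p)) :
    ∃ ψ : σ → MvPolynomial σ ℤ, (∀ i, map (Int.castRingHom (ZMod p)) (ψ i) = X i) ∧
      ∀ k : ℕ, (evalMap Φ)^[L * affExp p σ * k] x =
        fun i => x i + p * (evalMap ψ)^[k] 0 i := by
  obtain ⟨h, hh, hy⟩ := disc_iter p Φ L x hJ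
  have hw : ∀ i, ∃ w : ℤ, (evalMap Φ)^[L] x i = x i + p * w := by
    intro i
    have := (ZMod.intCast_eq_intCast_iff_dvd_sub _ _ _).mp (hcyc i).symm
    obtain ⟨w, hw⟩ := this
    exact ⟨w, by linarith⟩
  choose w hw using hw
  have hh' := hh.add_const w
  set h' : σ → MvPolynomial σ ℤ := fun i => C (w i) + h i with hh'def
  have hs1 : Function.Semiconj (fun (y : σ → ℤ) => (fun i => x i + p * y i)) (evalMap h')
      ((evalMap Φ)^[L]) := by
    intro y
    rw [hy y]
    funext i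
    rw [hw i]
    simp [evalMap, hh'def]
    ring
  refine ⟨polyIter h' (affExp p σ), polyIter_affExp hh', fun k => ?_⟩
  have hs2 := hs1.iterate_right (affExp p σ)
  have hs3 : Function.Semiconj (fun (y : σ → ℤ) => (fun i => x i + p * y i))
      (evalMap (polyIter h' (affExp p σ))) ((evalMap Φ)^[L * affExp p σ]) := by
    have h1 : evalMap (polyIter h' (affExp p σ)) = (evalMap h')^[affExp p σ] :=
      funext (evalMap_polyIter h' (affExp p σ))
    rw [h1, Function.iterate_mul]
    exact hs2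
  have hs4 := (hs3.iterate_right k) 0
  simp only [Pi.zero_apply, mul_zero, add_zero] at hs4
  rw [Function.iterate_mul]
  exact hs4.symm

/-- A zero set is finite or everything along each class `n + L k`, `n ≥ n₀`. -/
def FinOrAll (S : Set ℕ) (n₀ L : ℕ) : Prop :=
  ∀ n, n₀ ≤ n → {k | n + L * k ∈ S}.Finite ∨ ∀ k, n + L * k ∈ S

/-- The orbit of `α` is eventually periodic mod `p` with a cycle avoiding the critical locus. -/
def GoodOrbit (p : ℕ) (Φ : σ → MvPolynomial σ ℤ) (α : σ → ℤ) (n₀ L : ℕ) : Prop :=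
  ∀ n, n₀ ≤ n → IsUnit (jacMod p Φ ((evalMap Φ)^[n] α)) ∧
    ∀ i, (((evalMap Φ)^[n + L] α i : ℤ) : ZMod p) = ((evalMap Φ)^[n] α i : ZMod p)

lemma goodOrbit_finOrAll (p : ℕ) [Fact p.Prime] (hp3 : 3 ≤ p) (Φ : σ → MvPolynomial σ ℤ)
    (α : σ → ℤ) (n₀ L : ℕ) (h : GoodOrbit p Φ α n₀ L) (G : MvPolynomial σ ℤ) :
    FinOrAll {n | eval ((evalMap Φ)^[n] α) G = 0} n₀ (L * affExp p σ) := by
  intro n hn
  set x := (evalMap Φ)^[n] α with hx
  obtain ⟨ψ, hψ, hk⟩ := cycle_interp p Φ L x (by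
    intro m _
    rw [hx, ← Function.iterate_add_apply]
    exact (h (m + n) (by omega)).1) (by
    intro i
    rw [hx, ← Function.iterate_add_apply, add_comm L n]
    exact (h n hn).2 i)
  have hmem : ∀ k, (eval ((evalMap Φ)^[n + L * affExp p σ * k] α) G = 0) ↔
      (eval ((evalMap ψ)^[k] 0) (bind₁ (fun j => C (x j) + C (p : ℤ) * X j) G) = 0) := by
    intro k
    rw [add_comm n, Function.iterate_add_apply, ← hx, hk k, eval_disc]
  rcases zeros_dichotomy p hp3 ψ hψ (bind₁ (fun j => C (x j) + C (p : ℤ) * X j) G) 0 with h1 | h1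
  · left
    refine h1.subset ?_
    intro k hk
    exact (hmem k).mp hk
  · right
    intro k
    exact (hmem k).mpr (h1 k)

lemma FinOrAll.inter {ι : Type*} {S : ι → Set ℕ} {n₀ L : ℕ} (h : ∀ i, FinOrAll (S i) n₀ L) :
    FinOrAll (⋂ i, S i) n₀ L := by
  intro n hn
  by_cases hall : ∀ i, ∀ k, n + L * k ∈ S i
  · right
    intro k
    exact Set.mem_iInter.mpr fun i => hall i k
  · left
    push Not at hall
    obtain ⟨i, k, hik⟩ := hall
    rcases h i n hn with h1 | h1
    · refine h1.subset ?_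
      intro k hk
      exact Set.mem_iInter.mp hk i
    · exact absurd (h1 k) hik

omit [Fintype σ] [DecidableEq σ] in
/-- The vanishing of a complex polynomial at integer points is the vanishing of finitely many integer
polynomials. -/
lemma complex_zero_iff (G : MvPolynomial σ ℂ) :
    ∃ (ι : Type) (H : ι → MvPolynomial σ ℤ), ∀ x : σ → ℤ,
      eval (fun i => (x i : ℂ)) G = 0 ↔ ∀ i, eval x (H i) = 0 := by
  classical
  set M : Submodule ℤ ℂ := Submodule.span ℤ ((G.support.image (fun s => coeff s G) : Finset ℂ) : Set ℂ)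
    with hM
  have : Module.Finite ℤ M := by
    rw [hM]
    exact Module.Finite.span_of_finite ℤ (Finset.finite_toSet _)
  have : Module.Free ℤ M := Module.free_of_finite_type_torsion_free'
  set b := Module.finBasis ℤ M with hb
  have hmem : ∀ s ∈ G.support, coeff s G ∈ M := by
    intro s hs
    apply Submodule.subset_span
    simp only [Finset.coe_image, Set.mem_image, Finset.mem_coe]
    exact ⟨s, hs, rfl⟩
  set c : (σ →₀ ℕ) → M := fun s => if h : s ∈ G.support then ⟨coeff s G, hmem s h⟩ else 0 with hc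
  have hcs : ∀ s ∈ G.support, ((c s : M) : ℂ) = coeff s G := by
    intro s hs
    simp only [hc]
    rw [dif_pos hs]
  refine ⟨_, fun i => ∑ s ∈ G.support, monomial s (b.repr (c s) i), fun x => ?_⟩
  set m : M := ∑ s ∈ G.support, (s.prod fun i e => x i ^ e) • c s with hm
  have h1 : (m : ℂ) = eval (fun i => (x i : ℂ)) G := by
    rw [MvPolynomial.eval_eq, hm, Submodule.coe_sum]
    apply Finset.sum_congr rfl
    intro s hs
    rw [Submodule.coe_smul, hcs s hs, zsmul_eq_mul, mul_comm]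
    congr 1
    simp [Finsupp.prod]
  have h2 : ∀ i, b.repr m i = eval x (∑ s ∈ G.support, monomial s (b.repr (c s) i)) := by
    intro i
    rw [hm, map_sum, Finsupp.finsetSum_apply, map_sum]
    apply Finset.sum_congr rfl
    intro s _
    rw [map_smul, Finsupp.smul_apply, eval_monomial, smul_eq_mul, mul_comm]
  rw [← h1]
  constructor
  · intro h i
    have : m = 0 := (ZeroMemClass.coe_eq_zero).mp h
    rw [← h2, this]
    simp
  · intro h
    have : m = 0 := by
      apply b.repr.injective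
      ext i
      rw [h2, h i]
      simp
    rw [this]; rfl

/-- The return set of `V ⊂ 𝔸^σ(ℂ)` (zero locus of a set of complex polynomials) under the orbit. -/
def returnSet (Φ : σ → MvPolynomial σ ℤ) (α : σ → ℤ) (V : Set (MvPolynomial σ ℂ)) : Set ℕ :=
  {n | ∀ F ∈ V, eval (fun i => (((evalMap Φ)^[n] α i : ℤ) : ℂ)) F = 0}

lemma goodOrbit_returnSet (p : ℕ) [Fact p.Prime] (hp3 : 3 ≤ p) (Φ : σ → MvPolynomial σ ℤ)
    (α : σ → ℤ) (n₀ L : ℕ) (h : GoodOrbit p Φ α n₀ L) (V : Set (MvPolynomial σ ℂ)) :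
    FinOrAll (returnSet Φ α V) n₀ (L * affExp p σ) := by
  have h1 : returnSet Φ α V = ⋂ F : V, {n | eval (fun i => (((evalMap Φ)^[n] α i : ℤ) : ℂ)) F.1 = 0} := by
    ext n
    simp [returnSet]
  rw [h1]
  apply FinOrAll.inter
  intro F
  obtain ⟨ι, H, hH⟩ := complex_zero_iff F.1
  have h2 : {n | eval (fun i => (((evalMap Φ)^[n] α i : ℤ) : ℂ)) F.1 = 0} =
      ⋂ i, {n | eval ((evalMap Φ)^[n] α) (H i) = 0} := by
    ext n
    simp only [Set.mem_ofPred_eq, Set.mem_iInter]
    exact hH _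
  rw [h2]
  apply FinOrAll.inter
  intro i
  exact goodOrbit_finOrAll p hp3 Φ α n₀ L h (H i)

/-- `S` is a finite union of arithmetic progressions `{a + r k}`, `r = 0` allowed. -/
def FinUnionAP (S : Set ℕ) : Prop :=
  ∃ T : Finset (ℕ × ℕ), S = {n : ℕ | ∃ t ∈ T, ∃ k : ℕ, n = t.1 + t.2 * k}

lemma FinOrAll.finUnionAP {S : Set ℕ} {n₀ L : ℕ} (hL : 0 < L) (h : FinOrAll S n₀ L) :
    FinUnionAP S := by
  classical
  set A : Finset ℕ := (Finset.Ico n₀ (n₀ + L)).filter (fun r => ∀ k, r + L * k ∈ S) with hA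
  set E : Set ℕ := {n | n ∈ S ∧ ∀ r ∈ A, ∀ k, n ≠ r + L * k} with hE
  have hEfin : E.Finite := by
    have hsub : E ⊆ (Finset.range n₀ : Set ℕ) ∪
        ⋃ r ∈ (Finset.Ico n₀ (n₀ + L)).filter (fun r => ¬ ∀ k, r + L * k ∈ S),
          (fun k => r + L * k) '' {k | r + L * k ∈ S} := by
      intro n hn
      obtain ⟨hnS, hnA⟩ := hn
      by_cases hlt : n < n₀
      · left; simpa using hlt
      · right
        push Not at hlt
        set r := n₀ + (n - n₀) % L with hr
        have hrlt : (n - n₀) % L < L := Nat.mod_lt _ hL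
        have hnr : n = r + L * ((n - n₀) / L) := by
          have := Nat.mod_add_div (n - n₀) L
          omega
        simp only [Set.mem_iUnion]
        refine ⟨r, ?_, (n - n₀) / L, ?_, hnr.symm⟩
        · rw [Finset.mem_filter, Finset.mem_Ico]
          refine ⟨⟨by omega, by omega⟩, ?_⟩
          intro hall
          apply hnA r _ ((n - n₀) / L) hnr
          rw [hA, Finset.mem_filter, Finset.mem_Ico]
          exact ⟨⟨by omega, by omega⟩, hall⟩
        · show r + L * ((n - n₀) / L) ∈ S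
          rw [← hnr]; exact hnS
    refine Set.Finite.subset ?_ hsub
    apply Set.Finite.union (Finset.finite_toSet _)
    apply Set.Finite.biUnion (Finset.finite_toSet _)
    intro r hr
    apply Set.Finite.image
    rw [Finset.mem_coe, Finset.mem_filter, Finset.mem_Ico] at hr
    rcases h r hr.1.1 with h1 | h1
    · exact h1
    · exact absurd h1 hr.2
  refine ⟨hEfin.toFinset.image (fun n => (n, 0)) ∪ A.image (fun r => (r, L)), ?_⟩
  ext n
  simp only [Set.mem_ofPred_eq, Finset.mem_union, Finset.mem_image, Set.Finite.mem_toFinset]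
  constructor
  · intro hn
    by_cases hnA : ∃ r ∈ A, ∃ k, n = r + L * k
    · obtain ⟨r, hr, k, hk⟩ := hnA
      exact ⟨(r, L), Or.inr ⟨r, hr, rfl⟩, k, hk⟩
    · push Not at hnA
      exact ⟨(n, 0), Or.inl ⟨n, ⟨hn, hnA⟩, rfl⟩, 0, by simp⟩
  · rintro ⟨t, ht | ht, k, hk⟩
    · obtain ⟨m, hm, rfl⟩ := ht
      simp at hk
      rw [hk]; exact hm.1
    · obtain ⟨r, hr, rfl⟩ := ht
      rw [hk]
      rw [hA, Finset.mem_filter] at hr
      exact hr.2 k

/-- A good orbit mod a prime `p ≥ 3` satisfies the dynamical Mordell-Lang property. -/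
theorem dml_of_goodOrbit (p : ℕ) [Fact p.Prime] (hp3 : 3 ≤ p) (Φ : σ → MvPolynomial σ ℤ)
    (α : σ → ℤ) (n₀ L : ℕ) (hL : 0 < L) (h : GoodOrbit p Φ α n₀ L) (V : Set (MvPolynomial σ ℂ)) :
    FinUnionAP (returnSet Φ α V) :=
  (goodOrbit_returnSet p hp3 Φ α n₀ L h V).finUnionAP (Nat.mul_pos hL (affExp_pos p))

end Pool.Agent.Helper87.DML
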