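import Mathlib
import Pool.Agent.Helper87.DML.Cycle

set_option autoImplicit false

namespace Pool.Agent.Helper87.DML

open MvPolynomial

variable {σ : Type} [Fintype σ] [DecidableEq σ]

/-- Values and Jacobians at all `F_p`-points. -/
abbrev Jet (σ : Type) (p : ℕ) : Type :=
  ((σ → ZMod p) → (σ → ZMod p)) × ((σ → ZMod p) → Matrix σ σ (ZMod p))

/-- Reduction of an integer polynomial map to its jet mod `p`. -/
noncomputable def jet (p : ℕ) : (σ → MvPolynomial σ ℤ) →+ Jet σ p where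
  toFun Φ := (fun x i => eval x (map (Int.castRingHom (ZMod p)) (Φ i)),
    fun x => Matrix.of fun i j => eval x (pderiv j (map (Int.castRingHom (ZMod p)) (Φ i))))
  map_zero' := by
    ext <;> simp
  map_add' Φ Ψ := by
    ext <;> simp

omit [Fintype σ] [DecidableEq σ] in
lemma eval_cast (p : ℕ) (x : σ → ℤ) (F : MvPolynomial σ ℤ) :
    ((eval x F : ℤ) : ZMod p) = eval (fun i => (x i : ZMod p)) (map (Int.castRingHom (ZMod p)) F) := by
  rw [eval_map]
  have := MvPolynomial.eval₂_comp_left (Int.castRingHom (ZMod p)) (RingHom.id ℤ) x F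
  simp only [eval₂_id] at this
  exact this

omit [Fintype σ] [DecidableEq σ] in
lemma jet_fst (p : ℕ) (Φ : σ → MvPolynomial σ ℤ) (x : σ → ℤ) :
    (jet p Φ).1 (fun i => (x i : ZMod p)) = fun i => ((evalMap Φ x i : ℤ) : ZMod p) := by
  funext i
  simp only [jet, AddMonoidHom.coe_mk, ZeroHom.coe_mk, evalMap]
  rw [eval_cast]

omit [Fintype σ] [DecidableEq σ] in
lemma jet_snd (p : ℕ) (Φ : σ → MvPolynomial σ ℤ) (x : σ → ℤ) :
    (jet p Φ).2 (fun i => (x i : ZMod p)) = jacMod p Φ x := by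
  ext i j
  simp only [jet, AddMonoidHom.coe_mk, ZeroHom.coe_mk, jacMod, Matrix.of_apply]
  rw [eval_cast, pderiv_map]

/-- Hermite interpolation over a prime field. -/
lemma hermite (p : ℕ) [hp : Fact p.Prime] (u : (σ → ZMod p) → ZMod p)
    (w : (σ → ZMod p) → σ → ZMod p) :
    ∃ P : MvPolynomial σ (ZMod p), ∀ x, eval x P = u x ∧ ∀ j, eval x (pderiv j P) = w x j := by
  have hsurj : ∀ v : (σ → ZMod p) → ZMod p, ∃ P : MvPolynomial σ (ZMod p), ∀ x, eval x P = v x := by
    intro v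
    have h1 : v ∈ (restrictDegree σ (ZMod p) (Fintype.card (ZMod p) - 1)).map (evalₗ (ZMod p) σ) := by
      rw [map_restrict_dom_evalₗ]; trivial
    obtain ⟨P, _, hP⟩ := h1
    exact ⟨P, fun x => by rw [← hP]; rfl⟩
  obtain ⟨P₀, hP₀⟩ := hsurj u
  have hg : ∀ j : σ, ∃ g : MvPolynomial σ (ZMod p), ∀ x, eval x g = eval x (pderiv j P₀) - w x j :=
    fun j => hsurj _
  choose g hg using hg
  refine ⟨P₀ + ∑ j, (X j ^ p - X j) * g j, fun x => ⟨?_, fun l => ?_⟩⟩
  · rw [map_add, map_sum, hP₀]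
    have : ∀ j ∈ Finset.univ, eval x ((X j ^ p - X j) * g j) = 0 := by
      intro j _
      simp [ZMod.pow_card]
    rw [Finset.sum_eq_zero this, add_zero]
  · rw [map_add, map_sum, map_add, map_sum]
    have : ∀ j ∈ Finset.univ, eval x (pderiv l ((X j ^ p - X j) * g j)) =
        if l = j then - eval x (g j) else 0 := by
      intro j _
      rw [Derivation.leibniz, map_add, smul_eq_mul, smul_eq_mul, map_mul, map_mul]
      have h1 : eval x (X j ^ p - X j : MvPolynomial σ (ZMod p)) = 0 := by simp [ZMod.pow_card]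
      rw [h1, zero_mul, zero_add]
      have h2 : eval x (pderiv l (X j ^ p - X j : MvPolynomial σ (ZMod p))) =
          if l = j then (-1 : ZMod p) else 0 := by
        rw [map_sub, Derivation.leibniz_pow, pderiv_X]
        by_cases hlj : l = j
        · subst hlj
          simp
        · rw [Pi.single_eq_of_ne (Ne.symm hlj)]
          simp [hlj]
      rw [h2]
      split_ifs <;> ring
    rw [Finset.sum_congr rfl this, Finset.sum_ite_eq]
    simp [hg]

lemma jet_surjective (p : ℕ) [hp : Fact p.Prime] :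
    Function.Surjective (jet (σ := σ) p) := by
  rintro ⟨f, D⟩
  have h1 : ∀ i, ∃ P : MvPolynomial σ (ZMod p), ∀ x, eval x P = f x i ∧
      ∀ j, eval x (pderiv j P) = D x i j := fun i => hermite p (fun x => f x i) (fun x j => D x i j)
  choose P hP using h1
  have h2 : ∀ i, ∃ F : MvPolynomial σ ℤ, map (Int.castRingHom (ZMod p)) F = P i := by
    intro i
    exact MvPolynomial.map_surjective _ (ZMod.ringHom_surjective _) (P i)
  choose F hF using h2
  refine ⟨F, ?_⟩
  ext1
  · funext x i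
    simp only [jet, AddMonoidHom.coe_mk, ZeroHom.coe_mk]
    rw [hF]; exact (hP i x).1
  · funext x
    ext i j
    simp only [jet, AddMonoidHom.coe_mk, ZeroHom.coe_mk, Matrix.of_apply]
    rw [hF]; exact (hP i x).2 j

omit [Fintype σ] [DecidableEq σ] in
/-- Congruent polynomial maps have equal jets. -/
lemma jet_eq_of_dvd (p : ℕ) (Φ Ψ : σ → MvPolynomial σ ℤ)
    (h : ∀ i s, (p : ℤ) ∣ coeff s (Φ i) - coeff s (Ψ i)) : jet p Φ = jet p Ψ := by
  have h1 : ∀ i, map (Int.castRingHom (ZMod p)) (Φ i) = map (Int.castRingHom (ZMod p)) (Ψ i) := by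
    intro i
    ext s
    rw [coeff_map, coeff_map]
    have := (ZMod.intCast_eq_intCast_iff_dvd_sub (coeff s (Ψ i)) (coeff s (Φ i)) p).mpr (h i s)
    simpa using this.symm
  ext1
  · funext x i
    simp only [jet, AddMonoidHom.coe_mk, ZeroHom.coe_mk, h1]
  · funext x
    ext i j
    simp only [jet, AddMonoidHom.coe_mk, ZeroHom.coe_mk, Matrix.of_apply, h1]

section Multi

variable {κ : Type} [Fintype κ] [DecidableEq κ] (p : κ → ℕ) [∀ k, Fact (p k).Prime]

/-- The joint jet at several primes. -/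
noncomputable def jets : (σ → MvPolynomial σ ℤ) →+ (∀ k, Jet σ (p k)) :=
  AddMonoidHom.mk' (fun Φ k => jet (p k) Φ) (by intro a b; funext k; simp)

omit [Fintype σ] [DecidableEq σ] [Fintype κ] [DecidableEq κ] in
lemma jets_apply (Φ : σ → MvPolynomial σ ℤ) (k : κ) : jets p Φ k = jet (p k) Φ := rfl

lemma crt_idem (hinj : Function.Injective p) (k : κ) :
    ∃ e : ℤ, ((e : ℤ) : ZMod (p k)) = 1 ∧ ∀ l, l ≠ k → ((e : ℤ) : ZMod (p l)) = 0 := by
  have hprime : ∀ l, (p l).Prime := fun l => Fact.out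
  set q : ℕ := ∏ l ∈ Finset.univ.erase k, p l with hq
  have hcop : Nat.Coprime q (p k) := by
    apply Nat.Coprime.prod_left
    intro l hl
    rw [Finset.mem_erase] at hl
    exact (Nat.coprime_primes (hprime l) (hprime k)).mpr (fun h => hl.1 (hinj h))
  have hunit : IsUnit ((q : ℕ) : ZMod (p k)) := (ZMod.isUnit_iff_coprime q (p k)).mpr hcop
  obtain ⟨v, hv⟩ := ZMod.intCast_surjective (((q : ℕ) : ZMod (p k))⁻¹)
  refine ⟨v * q, ?_, fun l hl => ?_⟩
  · rw [Int.cast_mul, hv, Int.cast_natCast]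
    exact inv_mul_cancel₀ hunit.ne_zero
  · have : ((q : ℕ) : ZMod (p l)) = 0 := by
      rw [ZMod.natCast_eq_zero_iff]
      exact Finset.dvd_prod_of_mem p (Finset.mem_erase.mpr ⟨hl, Finset.mem_univ l⟩)
    push_cast
    rw [this, mul_zero]

omit [Fintype σ] [DecidableEq σ] in
lemma jet_C_mul (q : ℕ) (e : ℤ) (Φ : σ → MvPolynomial σ ℤ) (he : ((e : ℤ) : ZMod q) = 1) :
    jet q (e • Φ) = jet q Φ := by
  apply jet_eq_of_dvd
  intro i s
  have : coeff s ((e • Φ) i) - coeff s (Φ i) = (e - 1) * coeff s (Φ i) := by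
    rw [Pi.smul_apply, coeff_smul, smul_eq_mul]; ring
  rw [this]
  apply Dvd.dvd.mul_right
  have h2 : ((e - 1 : ℤ) : ZMod q) = 0 := by push_cast; rw [he]; ring
  exact (ZMod.intCast_zmod_eq_zero_iff_dvd _ _).mp h2

omit [Fintype σ] [DecidableEq σ] in
lemma jet_C_mul_zero (q : ℕ) (e : ℤ) (Φ : σ → MvPolynomial σ ℤ) (he : ((e : ℤ) : ZMod q) = 0) :
    jet q (e • Φ) = 0 := by
  rw [← map_zero (jet (σ := σ) q)]
  apply jet_eq_of_dvd
  intro i s
  have : coeff s ((e • Φ) i) - coeff s ((0 : σ → MvPolynomial σ ℤ) i) = e * coeff s (Φ i) := by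
    rw [Pi.smul_apply, coeff_smul, smul_eq_mul]; simp
  rw [this]
  apply Dvd.dvd.mul_right
  exact (ZMod.intCast_zmod_eq_zero_iff_dvd _ _).mp he

lemma jets_surjective (hinj : Function.Injective p) : Function.Surjective (jets (σ := σ) p) := by
  intro ω
  have h1 : ∀ k, ∃ Φ : σ → MvPolynomial σ ℤ, jet (p k) Φ = ω k := fun k => jet_surjective (p k) (ω k)
  choose Φ hΦ using h1
  choose e he he' using crt_idem p hinj
  refine ⟨∑ k, e k • Φ k, ?_⟩
  funext k
  rw [jets_apply, map_sum, Finset.sum_eq_single k]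
  · rw [jet_C_mul _ _ _ (he k), hΦ]
  · intro l _ hl
    exact jet_C_mul_zero _ _ _ (he' l k (Ne.symm hl))
  · intro h; exact absurd (Finset.mem_univ k) h

end Multi

end Pool.Agent.Helper87.DML
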