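import Mathlib
import Pool.Agent.Helper87.DML.Surj
import Pool.Agent.Helper87.DML.Box
import Pool.Agent.Helper87.DML.CountCyc

set_option autoImplicit false

namespace Pool.Agent.Helper87.DML

open MvPolynomial

section BoxSet

variable {σ : Type} [Fintype σ] [DecidableEq σ]

/-- Integer polynomial self-maps of affine `σ`-space of degree at most `d` with coefficients in
`[-B, B]`. -/
def boxSet (σ : Type) (d B : ℕ) : Set (σ → MvPolynomial σ ℤ) :=
  {Φ | ∀ i, (Φ i).totalDegree ≤ d ∧ ∀ s, |coeff s (Φ i)| ≤ (B : ℤ)}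

omit [Fintype σ] [DecidableEq σ] in
lemma coeff_eq_zero_of_degree {d : ℕ} {F : MvPolynomial σ ℤ} (hF : F.totalDegree ≤ d)
    {s : σ →₀ ℕ} (hs : d < s.degree) : coeff s F = 0 := by
  by_contra h
  have h1 := MvPolynomial.le_totalDegree (mem_support_iff.mpr h)
  have h2 : s.degree = s.sum fun _ e => e := rfl
  omega

omit [DecidableEq σ] in
lemma boxSet_finite (d B : ℕ) : (boxSet σ d B).Finite := by
  classical
  have hS : {s : σ →₀ ℕ | s.degree ≤ d}.Finite := Finsupp.finite_of_degree_le d
  have : Finite {s : σ →₀ ℕ | s.degree ≤ d} := hS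
  apply Set.Finite.of_injOn (f := fun (Φ : σ → MvPolynomial σ ℤ) (i : σ)
    (s : {s : σ →₀ ℕ | s.degree ≤ d}) => coeff s.1 (Φ i))
    (t := Set.pi Set.univ fun _ => Set.pi Set.univ fun _ => Set.Icc (-(B : ℤ)) B)
  · intro Φ hΦ i _ s _
    exact abs_le.mp ((hΦ i).2 s.1)
  · intro Φ hΦ Ψ hΨ h
    funext i
    ext s
    by_cases hs : s.degree ≤ d
    · exact congrFun (congrFun h i) ⟨s, hs⟩
    · push Not at hs
      rw [coeff_eq_zero_of_degree (hΦ i).1 hs, coeff_eq_zero_of_degree (hΨ i).1 hs]
  · apply Set.Finite.pi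
    intro i
    apply Set.Finite.pi
    intro s
    exact Set.finite_Icc _ _

/-- The coefficient functional. -/
noncomputable def coordP (S₀ : Finset (σ →₀ ℕ)) (is : σ × S₀) : (σ → MvPolynomial σ ℤ) →+ ℤ where
  toFun Φ := coeff is.2.1 (Φ is.1)
  map_zero' := by simp
  map_add' := by intro a b; simp

/-- The monomial direction. -/
noncomputable def dirP (S₀ : Finset (σ →₀ ℕ)) (is : σ × S₀) : σ → MvPolynomial σ ℤ :=
  Pi.single is.1 (monomial is.2.1 1)

omit [Fintype σ] [DecidableEq σ] in
lemma coordP_apply (S₀ : Finset (σ →₀ ℕ)) (i : σ) (s : S₀) (Φ : σ → MvPolynomial σ ℤ) :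
    coordP S₀ (i, s) Φ = coeff s.1 (Φ i) := rfl

omit [Fintype σ] in
lemma dirP_apply (S₀ : Finset (σ →₀ ℕ)) (i : σ) (s : S₀) :
    dirP S₀ (i, s) = Pi.single i (monomial s.1 1) := rfl

lemma isBox_boxSet (S₀ : Finset (σ →₀ ℕ)) (d B : ℕ) (hd : ∀ s ∈ S₀, s.degree ≤ d) :
    IsBox (boxSet_finite (σ := σ) d B).toFinset (dirP S₀) (coordP S₀) B := by
  classical
  constructor
  · rintro ⟨i, s⟩ ⟨j, t⟩
    rw [coordP_apply, dirP_apply]
    by_cases hij : i = j
    · subst hij
      rw [Pi.single_eq_same, coeff_monomial]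
      by_cases hst : s = t
      · subst hst; simp
      · have : ¬ (t.1 = s.1) := fun h => hst (Subtype.ext h.symm)
        simp [hst, this]
    · rw [Pi.single_eq_of_ne hij]
      simp [hij]
  · intro v hv is
    rw [Set.Finite.mem_toFinset] at hv
    exact (hv is.1).2 is.2.1
  · rintro v hv ⟨i, s⟩ c hc
    rw [Set.Finite.mem_toFinset] at hv ⊢
    intro l
    rw [coordP_apply, dirP_apply, Pi.add_apply, Pi.smul_apply]
    by_cases hl : l = i
    · subst hl
      rw [Pi.single_eq_same]
      have hcoef : ∀ t, coeff t (v l + (c - coeff s.1 (v l)) • (monomial s.1 (1 : ℤ))) =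
          if t = s.1 then c else coeff t (v l) := by
        intro t
        rw [coeff_add, coeff_smul, coeff_monomial]
        by_cases ht : s.1 = t
        · subst ht; simp
        · have : ¬ t = s.1 := fun h => ht h.symm
          simp [ht, this]
      constructor
      · refine (totalDegree_add _ _).trans (max_le (hv l).1 ?_)
        exact (totalDegree_smul_le _ _).trans ((totalDegree_monomial_le _ _).trans (hd s.1 s.2))
      · intro t
        rw [hcoef]
        split_ifs
        · exact hc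
        · exact (hv l).2 t
    · rw [Pi.single_eq_of_ne hl]
      simp only [smul_zero, add_zero]
      exact hv l

/-- A homomorphism killing polynomials divisible by `Q` is already surjective on a small box. -/
lemma exists_small_surj {Ω : Type} [Finite Ω] [AddCommGroup Ω] (L : (σ → MvPolynomial σ ℤ) →+ Ω)
    (hL : Function.Surjective L) (Q : ℕ) (hQ : 0 < Q)
    (hQL : ∀ Φ Ψ : σ → MvPolynomial σ ℤ,
      (∀ i s, (Q : ℤ) ∣ coeff s (Φ i) - coeff s (Ψ i)) → L Φ = L Ψ) :
    ∃ S₀ : Finset (σ →₀ ℕ), ∀ ω : Ω, ∃ a : σ × S₀ → ℕ, (∀ is, a is ≤ Q) ∧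
      L (∑ is, a is • dirP S₀ is) = ω := by
  classical
  have := Fintype.ofFinite Ω
  choose Φ hΦ using hL
  set S₀ : Finset (σ →₀ ℕ) :=
    Finset.univ.biUnion (fun ω => Finset.univ.biUnion (fun i => (Φ ω i).support)) with hS₀
  refine ⟨S₀, fun ω => ⟨fun is => ((coeff is.2.1 (Φ ω is.1)) % (Q : ℤ)).toNat, ?_, ?_⟩⟩
  · rintro ⟨i, s⟩
    have h1 : (coeff s.1 (Φ ω i)) % (Q : ℤ) < Q := Int.emod_lt_of_pos _ (by exact_mod_cast hQ)
    simp only
    omega
  · refine Eq.trans ?_ (hΦ ω)
    apply hQL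
    intro l t
    beta_reduce
    have h1 : (∑ is : σ × S₀, ((coeff is.2.1 (Φ ω is.1)) % (Q : ℤ)).toNat • dirP S₀ is) l =
        ∑ s : S₀, ((coeff s.1 (Φ ω l)) % (Q : ℤ)).toNat • (monomial s.1 (1 : ℤ)) := by
      rw [Finset.sum_apply, Fintype.sum_prod_type, Finset.sum_eq_single l]
      · apply Finset.sum_congr rfl
        intro s _
        rw [Pi.smul_apply, dirP_apply, Pi.single_eq_same]
      · intro i _ hi
        apply Finset.sum_eq_zero
        intro s _
        rw [Pi.smul_apply, dirP_apply, Pi.single_eq_of_ne (Ne.symm hi), smul_zero]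
      · intro h; exact absurd (Finset.mem_univ l) h
    rw [h1, coeff_sum]
    have h2 : ∀ s : S₀, coeff t (((coeff s.1 (Φ ω l)) % (Q : ℤ)).toNat • (monomial s.1 (1 : ℤ))) =
        if s.1 = t then ((coeff t (Φ ω l)) % (Q : ℤ)) else 0 := by
      intro s
      rw [coeff_smul, coeff_monomial]
      split_ifs with hst
      · rw [hst]
        have h3 : 0 ≤ (coeff t (Φ ω l)) % (Q : ℤ) := Int.emod_nonneg _ (by exact_mod_cast hQ.ne')
        rw [nsmul_eq_mul, mul_one, Int.natCast_toNat_eq_self.mpr h3]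
      · simp
    rw [Finset.sum_congr rfl (fun s _ => h2 s)]
    by_cases ht : t ∈ S₀
    · rw [Finset.sum_eq_single ⟨t, ht⟩]
      · simp only [if_true]
        exact (Int.mod_modEq _ _).symm.dvd
      · intro s _ hs
        rw [if_neg]
        intro h
        exact hs (Subtype.ext h)
      · intro h; exact absurd (Finset.mem_univ _) h
    · have h3 : coeff t (Φ ω l) = 0 := by
        rw [← notMem_support_iff]
        intro h
        apply ht
        rw [hS₀, Finset.mem_biUnion]
        refine ⟨ω, Finset.mem_univ _, ?_⟩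
        rw [Finset.mem_biUnion]
        exact ⟨l, Finset.mem_univ _, h⟩
      rw [h3, sub_zero]
      apply Finset.dvd_sum
      intro s _
      split_ifs <;> simp

end BoxSet

section Primes

/-- The primes at least `3` have divergent reciprocal sum, finite form. -/
lemma exists_primes_sum (A : ℝ) : ∃ P : Finset ℕ, (∀ q ∈ P, q.Prime ∧ 3 ≤ q) ∧
    A ≤ ∑ q ∈ P, (1 : ℝ) / q := by
  classical
  have h1 : ∃ u : Finset Nat.Primes, A + 1 < ∑ q ∈ u, (1 : ℝ) / (q : ℕ) := by
    by_contra h
    push Not at h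
    exact Nat.Primes.not_summable_one_div (summable_of_sum_le (fun q => by positivity) h)
  obtain ⟨u, hu⟩ := h1
  refine ⟨(u.image (fun q : Nat.Primes => (q : ℕ))).erase 2, ?_, ?_⟩
  · intro q hq
    rw [Finset.mem_erase, Finset.mem_image] at hq
    obtain ⟨h2, r, _, rfl⟩ := hq
    exact ⟨r.2, lt_of_le_of_ne r.2.two_le (Ne.symm h2)⟩
  · have h2 : ∑ q ∈ u, (1 : ℝ) / (q : ℕ) = ∑ q ∈ u.image (fun q : Nat.Primes => (q : ℕ)), (1 : ℝ) / q := by
      rw [Finset.sum_image]
      intro a _ b _ hab
      exact Subtype.ext hab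
    rw [h2] at hu
    by_cases h3 : 2 ∈ u.image (fun q : Nat.Primes => (q : ℕ))
    · rw [← Finset.add_sum_erase _ _ h3] at hu
      have : (1 : ℝ) / (2 : ℕ) ≤ 1 := by norm_num
      linarith
    · rw [Finset.erase_eq_of_notMem h3]
      linarith

end Primes

section Final

variable {σ : Type} [Fintype σ] [DecidableEq σ]

lemma FinOrAll.explicit {S : Set ℕ} {n₀ L : ℕ} (hL : 0 < L) (h : FinOrAll S n₀ L) :
    ∃ E A : Finset ℕ, S = {n : ℕ | n ∈ E ∨ ∃ a ∈ A, ∃ k : ℕ, n = a + L * k} := by
  classical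
  set A : Finset ℕ := (Finset.Ico n₀ (n₀ + L)).filter (fun r => ∀ k, r + L * k ∈ S) with hA
  set E : Set ℕ := {n | n ∈ S ∧ ∀ r ∈ A, ∀ k, n ≠ r + L * k} with hE
  have hEfin : E.Finite := by
    have hsub : E ⊆ (Finset.range n₀ : Set ℕ) ∪
        ⋃ r ∈ (Finset.Ico n₀ (n₀ + L)).filter (fun r => ¬ ∀ k, r + L * k ∈ S),
          (fun k => r + L * k) '' {k | r + L * k ∈ S} := by
      intro n hn
      obtain ⟨hnS, hnA⟩ := hn
      by_cases hlt : n < n₀
      · left; simpa using hlt
      · right
        push Not at hlt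
        set r := n₀ + (n - n₀) % L with hr
        have hrlt : (n - n₀) % L < L := Nat.mod_lt _ hL
        have hnr : n = r + L * ((n - n₀) / L) := by
          have := Nat.mod_add_div (n - n₀) L
          omega
        simp only [Set.mem_iUnion]
        refine ⟨r, ?_, (n - n₀) / L, ?_, hnr.symm⟩
        · rw [Finset.mem_filter, Finset.mem_Ico]
          refine ⟨⟨by omega, by omega⟩, ?_⟩
          intro hall
          apply hnA r _ ((n - n₀) / L) hnr
          rw [hA, Finset.mem_filter, Finset.mem_Ico]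
          exact ⟨⟨by omega, by omega⟩, hall⟩
        · show r + L * ((n - n₀) / L) ∈ S
          rw [← hnr]; exact hnS
    refine Set.Finite.subset ?_ hsub
    apply Set.Finite.union (Finset.finite_toSet _)
    apply Set.Finite.biUnion (Finset.finite_toSet _)
    intro r hr
    apply Set.Finite.image
    rw [Finset.mem_coe, Finset.mem_filter, Finset.mem_Ico] at hr
    rcases h r hr.1.1 with h1 | h1
    · exact h1
    · exact absurd h1 hr.2
  refine ⟨hEfin.toFinset, A, ?_⟩
  ext n
  simp only [Set.mem_ofPred_eq, Set.Finite.mem_toFinset]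
  constructor
  · intro hn
    by_cases hnA : ∃ r ∈ A, ∃ k, n = r + L * k
    · exact Or.inr hnA
    · push Not at hnA
      exact Or.inl ⟨hn, hnA⟩
  · rintro (h1 | ⟨a, ha, k, rfl⟩)
    · exact h1.1
    · rw [hA, Finset.mem_filter] at ha
      exact ha.2 k

/-- Uniform dynamical Mordell-Lang property for all integer initial points and all `V`. -/
def UniformDML (Φ : σ → MvPolynomial σ ℤ) : Prop :=
  ∃ L : ℕ, 0 < L ∧ ∀ (α : σ → ℤ) (V : Set (MvPolynomial σ ℂ)),
    ∃ E A : Finset ℕ, returnSet Φ α V = {n : ℕ | n ∈ E ∨ ∃ a ∈ A, ∃ k : ℕ, n = a + L * k}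

omit [Fintype σ] [DecidableEq σ] in
lemma jet_iterate (p : ℕ) (Φ : σ → MvPolynomial σ ℤ) (α : σ → ℤ) (n : ℕ) :
    ((jet p Φ).1)^[n] (fun i => (α i : ZMod p)) = fun i => (((evalMap Φ)^[n] α i : ℤ) : ZMod p) := by
  induction n with
  | zero => rfl
  | succ n ih =>
    rw [Function.iterate_succ_apply', ih, jet_fst, Function.iterate_succ_apply']

/-- In a finite set, iterates are periodic with period `card!` after `card` steps. -/
lemma iterate_periodic {X : Type} [Fintype X] (f : X → X) (x : X) (n : ℕ) (hn : Fintype.card X ≤ n) :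
    IsCyc f (f^[n] x) ∧ f^[n + (Fintype.card X).factorial] x = f^[n] x := by
  classical
  have h1 : ∃ i j : Fin (Fintype.card X + 1), i ≠ j ∧ f^[(i : ℕ)] x = f^[(j : ℕ)] x := by
    by_contra h
    push Not at h
    have : Function.Injective (fun i : Fin (Fintype.card X + 1) => f^[(i : ℕ)] x) := by
      intro i j hij
      by_contra hne
      exact h i j hne hij
    have := Fintype.card_le_of_injective _ this
    simp at this
  obtain ⟨i, j, hij, hx⟩ := h1
  wlog hlt : (i : ℕ) < j generalizing i j with H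
  · have : (j : ℕ) < i := by
      have : (i : ℕ) ≠ j := fun h => hij (Fin.ext h)
      omega
    exact H j i (Ne.symm hij) hx.symm this
  have hj : (j : ℕ) ≤ Fintype.card X := by omega
  set r := (j : ℕ) - i with hr
  have hr0 : 0 < r := by omega
  have h2 : ∀ m, (i : ℕ) ≤ m → f^[m + r] x = f^[m] x := by
    intro m hm
    have h3 : m + r = (m - i) + j := by omega
    have h4 : m = (m - i) + i := by omega
    rw [h3, Function.iterate_add_apply, ← hx, ← Function.iterate_add_apply, ← h4]
  have h5 : ∀ q, f^[n + r * q] x = f^[n] x := by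
    intro q
    induction q with
    | zero => rfl
    | succ q ih =>
      rw [Nat.mul_succ, ← add_assoc, h2 _ (by omega), ih]
  refine ⟨⟨r, hr0, ?_⟩, ?_⟩
  · rw [← Function.iterate_add_apply, add_comm]
    have := h5 1
    rwa [mul_one] at this
  · obtain ⟨q, hq⟩ := Nat.dvd_factorial hr0 (by omega : r ≤ Fintype.card X)
    rw [hq]
    exact h5 q

lemma uniformDML_of_good (p : ℕ) [hp : Fact p.Prime] (hp3 : 3 ≤ p) (Φ : σ → MvPolynomial σ ℤ)
    (h : ∀ x, IsCyc (jet p Φ).1 x → IsUnit ((jet p Φ).2 x)) : UniformDML Φ := by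
  set M := Fintype.card (σ → ZMod p) with hM
  refine ⟨M.factorial * affExp p σ, Nat.mul_pos (Nat.factorial_pos _) (affExp_pos p), fun α V => ?_⟩
  have hgood : GoodOrbit p Φ α M M.factorial := by
    intro n hn
    obtain ⟨h1, h2⟩ := iterate_periodic (jet p Φ).1 (fun i => (α i : ZMod p)) n hn
    constructor
    · rw [← jet_snd]
      apply h
      rw [← jet_iterate]
      exact h1
    · rw [← hM, jet_iterate, jet_iterate] at h2
      intro i
      exact congrFun h2 i
  exact (goodOrbit_returnSet p hp3 Φ α M M.factorial hgood V).explicit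
    (Nat.mul_pos (Nat.factorial_pos _) (affExp_pos p))

end Final

end Pool.Agent.Helper87.DML
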