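import Mathlib
import Pool.Agent.Helper87.DML.Stat

set_option autoImplicit false

namespace Pool.Agent.Helper87.DML

open MvPolynomial

section

variable {σ : Type} [Fintype σ] [DecidableEq σ]

/-- Jets all of whose cyclic points are noncritical. -/
noncomputable def goodJet (σ : Type) [Fintype σ] [DecidableEq σ] (p : ℕ) [Fact p.Prime] :
    Finset (Jet σ p) := by
  classical
  exact goodPairs (σ → ZMod p) (Matrix σ σ (ZMod p)) (Finset.univ.filter (fun A => IsUnit A))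

lemma mem_goodJet (p : ℕ) [Fact p.Prime] (J : Jet σ p) :
    J ∈ goodJet σ p ↔ ∀ x, IsCyc J.1 x → IsUnit (J.2 x) := by
  classical
  simp [goodJet, goodPairs]

theorem stat_main (c : ℝ) (hc : 0 < c)
    (hδ : ∀ (p : ℕ) [Fact p.Prime], 3 ≤ p →
      c / p * (Fintype.card (Jet σ p) : ℝ) ≤ (goodJet σ p).card) (ε : ℝ) (hε : 0 < ε) :
    ∃ K : ℕ, ∀ d B : ℕ, K ≤ d → K ≤ B →
      (1 - ε) * ((boxSet σ d B).ncard : ℝ) ≤
        (({Φ | Φ ∈ boxSet σ d B ∧ UniformDML Φ} : Set (σ → MvPolynomial σ ℤ)).ncard : ℝ) := by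
  classical
  -- choose primes
  obtain ⟨P, hP, hsum⟩ := exists_primes_sum (-Real.log (ε / 2) / c)
  have hPp : ∀ k : {q // q ∈ P}, Fact (k.1).Prime := fun k => ⟨(hP k.1 k.2).1⟩
  set p : {q // q ∈ P} → ℕ := fun k => k.1 with hp
  have hinj : Function.Injective p := Subtype.val_injective
  -- good jets
  set 𝒢 : Finset (∀ k : {q // q ∈ P}, Jet σ (p k)) :=
    Finset.univ.filter (fun ω => ∃ k, ω k ∈ goodJet σ (p k)) with h𝒢
  set bad : ∀ k : {q // q ∈ P}, Finset (Jet σ (p k)) :=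
    fun k => Finset.univ.filter (fun J => J ∉ goodJet σ (p k)) with hbad
  have hbadcard : ∀ k, (goodJet σ (p k)).card + (bad k).card = Fintype.card (Jet σ (p k)) := by
    intro k
    have h1 : goodJet σ (p k) = Finset.univ.filter (fun J => J ∈ goodJet σ (p k)) := by
      ext J; simp
    rw [hbad]
    conv_lhs => rw [h1]
    simp only [Finset.mem_filter, Finset.mem_univ, true_and]
    rw [Finset.card_filter_add_card_filter_not, Finset.card_univ]
  set 𝒢' : Finset (∀ k : {q // q ∈ P}, Jet σ (p k)) :=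
    Finset.univ.filter (fun ω => ¬ ∃ k, ω k ∈ goodJet σ (p k)) with h𝒢'
  have hG : 𝒢.card + 𝒢'.card = Fintype.card (∀ k : {q // q ∈ P}, Jet σ (p k)) := by
    rw [h𝒢, h𝒢', Finset.card_filter_add_card_filter_not, Finset.card_univ]
  have hcompl : 𝒢'.card = ∏ k : {q // q ∈ P}, (bad k).card := by
    have : 𝒢' = Fintype.piFinset bad := by
      ext ω
      rw [h𝒢', Finset.mem_filter, Fintype.mem_piFinset]
      simp [hbad]
    rw [this, Fintype.card_piFinset]
  have hΩ : Fintype.card (∀ k : {q // q ∈ P}, Jet σ (p k)) =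
      ∏ k : {q // q ∈ P}, Fintype.card (Jet σ (p k)) := Fintype.card_pi
  have hratio : (𝒢'.card : ℝ) ≤ ε / 2 * (Fintype.card (∀ k : {q // q ∈ P}, Jet σ (p k)) : ℝ) := by
    rw [hcompl, hΩ]
    push_cast
    have h1 : ∀ k ∈ (Finset.univ : Finset {q // q ∈ P}), ((bad k).card : ℝ) ≤
        Real.exp (-(c / (p k))) * (Fintype.card (Jet σ (p k)) : ℝ) := by
      intro k _
      have h0 : ((goodJet σ (p k)).card : ℝ) + (bad k).card = Fintype.card (Jet σ (p k)) := by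
        exact_mod_cast hbadcard k
      have h2 := hδ (p k) (hP k.1 k.2).2
      have h3 : 1 - c / (p k) ≤ Real.exp (-(c / (p k))) := by
        have := Real.add_one_le_exp (-(c / (p k)))
        linarith
      have h4 : (0 : ℝ) ≤ (Fintype.card (Jet σ (p k)) : ℝ) := Nat.cast_nonneg _
      nlinarith
    have h2 : ∏ k : {q // q ∈ P}, ((bad k).card : ℝ) ≤
        ∏ k : {q // q ∈ P}, (Real.exp (-(c / (p k))) * (Fintype.card (Jet σ (p k)) : ℝ)) :=
      Finset.prod_le_prod (fun _ _ => Nat.cast_nonneg _) h1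
    refine h2.trans ?_
    rw [Finset.prod_mul_distrib, ← Real.exp_sum]
    apply mul_le_mul_of_nonneg_right _ (Finset.prod_nonneg fun _ _ => Nat.cast_nonneg _)
    have h3 : ∑ k : {q // q ∈ P}, -(c / (p k : ℝ)) = -(c * ∑ q ∈ P, (1 : ℝ) / q) := by
      rw [Finset.sum_neg_distrib, Finset.mul_sum, ← Finset.sum_coe_sort P]
      congr 1
      apply Finset.sum_congr rfl
      intro k _
      rw [mul_one_div]
    rw [h3]
    have h4 : -Real.log (ε / 2) ≤ c * ∑ q ∈ P, (1 : ℝ) / q := by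
      rw [div_le_iff₀ hc] at hsum
      linarith
    calc Real.exp (-(c * ∑ q ∈ P, (1 : ℝ) / q)) ≤ Real.exp (Real.log (ε / 2)) := by
          apply Real.exp_le_exp.mpr; linarith
      _ = ε / 2 := Real.exp_log (by positivity)
  -- the modulus
  set Q : ℕ := ∏ q ∈ P, q with hQ
  have hQpos : 0 < Q := Finset.prod_pos (fun q hq => (hP q hq).1.pos)
  obtain ⟨S₀, hS₀⟩ := exists_small_surj (jets (σ := σ) p) (jets_surjective p hinj) Q hQpos (by
    intro Φ Ψ h
    funext k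
    rw [jets_apply, jets_apply]
    apply jet_eq_of_dvd
    intro i s
    refine dvd_trans ?_ (h i s)
    have : (p k) ∣ Q := Finset.dvd_prod_of_mem _ k.2
    exact_mod_cast this)
  set d₀ : ℕ := S₀.sup Finsupp.degree with hd₀
  set B₀ : ℕ := ⌈(Fintype.card (σ × S₀) * Q : ℝ) / ε⌉₊ with hB₀
  refine ⟨max d₀ B₀, fun d B hd hB => ?_⟩
  have hd' : ∀ s ∈ S₀, s.degree ≤ d := fun s hs =>
    (Finset.le_sup hs).trans ((le_max_left _ _).trans hd)
  have hbox := isBox_boxSet S₀ d B hd'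
  have hprop := hbox.proportion (jets (σ := σ) p) Q hS₀ 𝒢
  -- compare cardinalities
  have hfilt : ((boxSet_finite (σ := σ) d B).toFinset.filter (fun v => jets (σ := σ) p v ∈ 𝒢)).card ≤
      ({Φ | Φ ∈ boxSet σ d B ∧ UniformDML Φ} : Set (σ → MvPolynomial σ ℤ)).ncard := by
    rw [← Set.ncard_coe_finset]
    apply Set.ncard_le_ncard
    · intro Φ hΦ
      rw [Finset.mem_coe, Finset.mem_filter, Set.Finite.mem_toFinset, h𝒢, Finset.mem_filter] at hΦ
      obtain ⟨h1, _, k, hk⟩ := hΦ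
      refine ⟨h1, ?_⟩
      rw [jets_apply, mem_goodJet] at hk
      exact uniformDML_of_good (p k) (hP k.1 k.2).2 Φ hk
    · exact (boxSet_finite (σ := σ) d B).subset (fun Φ hΦ => hΦ.1)
  have hcard : ((boxSet_finite (σ := σ) d B).toFinset.card : ℝ) = ((boxSet σ d B).ncard : ℝ) := by
    rw [Set.ncard_eq_toFinset_card _ (boxSet_finite (σ := σ) d B)]
  rw [hcard] at hprop
  refine le_trans ?_ (hprop.trans (by exact_mod_cast hfilt))
  apply mul_le_mul_of_nonneg_right _ (Nat.cast_nonneg _)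
  -- (1 - ε) ≤ (|𝒢|/|Ω|) (1 - ...)
  have hΩpos : (0 : ℝ) < (Fintype.card (∀ k : {q // q ∈ P}, Jet σ (p k)) : ℝ) := by
    have : 0 < Fintype.card (∀ k : {q // q ∈ P}, Jet σ (p k)) := Fintype.card_pos_iff.mpr ⟨0⟩
    exact_mod_cast this
  have h1 : 1 - ε / 2 ≤ (𝒢.card : ℝ) / (Fintype.card (∀ k : {q // q ∈ P}, Jet σ (p k)) : ℝ) := by
    rw [le_div_iff₀ hΩpos]
    have h2 : (𝒢.card : ℝ) + 𝒢'.card = Fintype.card (∀ k : {q // q ∈ P}, Jet σ (p k)) := by
      exact_mod_cast hG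
    linarith
  have h2 : (Fintype.card (σ × S₀) * Q : ℝ) / (2 * B + 1) ≤ ε / 2 := by
    have hBB : (B₀ : ℝ) ≤ B := by exact_mod_cast (le_max_right _ _).trans hB
    have h3 : (Fintype.card (σ × S₀) * Q : ℝ) / ε ≤ B := (Nat.le_ceil _).trans hBB
    rw [div_le_iff₀ hε] at h3
    rw [div_le_iff₀ (by positivity)]
    nlinarith
  by_cases hε1 : ε ≤ 1
  · have h3 : 0 ≤ 1 - (Fintype.card (σ × S₀) * Q : ℝ) / (2 * B + 1) := by linarith
    calc 1 - ε ≤ (1 - ε / 2) * (1 - ε / 2) := by nlinarith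
      _ ≤ (1 - ε / 2) * (1 - (Fintype.card (σ × S₀) * Q : ℝ) / (2 * B + 1)) := by
          apply mul_le_mul_of_nonneg_left <;> linarith
      _ ≤ _ := mul_le_mul_of_nonneg_right h1 h3
  · -- ε > 1: the left side is negative
    push Not at hε1
    by_cases h3 : 0 ≤ 1 - (Fintype.card (σ × S₀) * Q : ℝ) / (2 * B + 1)
    · have : (0 : ℝ) ≤ (𝒢.card : ℝ) / (Fintype.card (∀ k : {q // q ∈ P}, Jet σ (p k)) : ℝ) *
        (1 - (Fintype.card (σ × S₀) * Q : ℝ) / (2 * B + 1)) := by positivity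
      linarith
    · push Not at h3
      have h4 : (𝒢.card : ℝ) / (Fintype.card (∀ k : {q // q ∈ P}, Jet σ (p k)) : ℝ) ≤ 1 := by
        rw [div_le_one hΩpos]
        exact_mod_cast Finset.card_le_univ 𝒢
      nlinarith

end

section Three

/-- A lower bound for the number of invertible `3 × 3` matrices over `F_p`. -/
lemma card_units_three (p : ℕ) [hp : Fact p.Prime] (hp3 : 3 ≤ p) :
    (1 - 3 / (2 * (p : ℝ))) * (Fintype.card (Matrix (Fin 3) (Fin 3) (ZMod p)) : ℝ) ≤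
      ((Finset.univ.filter (fun A : Matrix (Fin 3) (Fin 3) (ZMod p) => IsUnit A)).card : ℝ) := by
  classical
  have h1 : (Finset.univ.filter (fun A : Matrix (Fin 3) (Fin 3) (ZMod p) => IsUnit A)).card =
      Nat.card (GL (Fin 3) (ZMod p)) := by
    rw [← Fintype.card_subtype, ← Nat.card_eq_fintype_card]
    exact Nat.card_congr ⟨fun A => A.2.unit, fun u => ⟨u.1, u.isUnit⟩, fun A => rfl,
      fun u => Units.ext rfl⟩
  have h0 : Fintype.card (Matrix (Fin 3) (Fin 3) (ZMod p)) = (p ^ 3) ^ 3 := by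
    have : Fintype.card (Matrix (Fin 3) (Fin 3) (ZMod p)) = Fintype.card (Fin 3 → Fin 3 → ZMod p) :=
      rfl
    rw [this, Fintype.card_fun, Fintype.card_fun, ZMod.card, Fintype.card_fin]
  rw [h1, Matrix.card_GL_field, h0, ZMod.card]
  rw [Fin.prod_univ_three]
  have hpp : 1 ≤ p := hp.out.one_lt.le
  have e1 : p ^ 0 ≤ p ^ 3 := Nat.pow_le_pow_right hpp (by norm_num)
  have e2 : p ^ 1 ≤ p ^ 3 := Nat.pow_le_pow_right hpp (by norm_num)
  have e3 : p ^ 2 ≤ p ^ 3 := Nat.pow_le_pow_right hpp (by norm_num)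
  simp only [Fin.val_zero, Fin.val_one, Fin.val_two]
  rw [Nat.cast_mul, Nat.cast_mul, Nat.cast_sub e1, Nat.cast_sub e2, Nat.cast_sub e3]
  push_cast
  have hp3' : (3 : ℝ) ≤ p := by exact_mod_cast hp3
  set t : ℝ := (p : ℝ) with ht
  have ht0 : 0 < t := by linarith
  have h2 : (1 - 3 / (2 * t)) * (t ^ 3) ^ 3 = (2 * t - 3) * t ^ 8 / 2 := by
    field_simp
  rw [h2, div_le_iff₀ (by norm_num)]
  have h3 : ((t ^ 3 - t ^ 0) * (t ^ 3 - t ^ 1) * (t ^ 3 - t ^ 2)) * 2 - (2 * t - 3) * t ^ 8 =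
      t ^ 3 * (t ^ 5 - 2 * t ^ 4 + 2 * t ^ 2 + 2 * t - 2) := by ring
  have h4 : 0 ≤ t ^ 5 - 2 * t ^ 4 + 2 * t ^ 2 + 2 * t - 2 := by
    have : t ^ 5 - 2 * t ^ 4 = t ^ 4 * (t - 2) := by ring
    have h5 : 0 ≤ t ^ 4 * (t - 2) := by apply mul_nonneg <;> [positivity; linarith]
    nlinarith
  have h5 : 0 ≤ t ^ 3 * (t ^ 5 - 2 * t ^ 4 + 2 * t ^ 2 + 2 * t - 2) := by positivity
  linarith

lemma goodJet_three (p : ℕ) [hp : Fact p.Prime] (hp3 : 3 ≤ p) :
    (1 / 200 : ℝ) / p * (Fintype.card (Jet (Fin 3) p) : ℝ) ≤ (goodJet (Fin 3) p).card := by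
  classical
  have hpr : (3 : ℝ) ≤ p := by exact_mod_cast hp3
  have hp0 : (0 : ℝ) < p := by linarith
  have hX : Fintype.card (Fin 3 → ZMod p) = p ^ 3 := by
    rw [Fintype.card_fun, ZMod.card, Fintype.card_fin]
  set K : ℕ := p / 3 with hK
  have hK3 : (K : ℝ) ≤ p / 3 := by
    have : K * 3 ≤ p := Nat.div_mul_le_self p 3
    have : (K : ℝ) * 3 ≤ p := by exact_mod_cast this
    linarith
  have hK5 : (p : ℝ) / 5 ≤ K := by
    have : p ≤ 5 * K := by omega
    have : (p : ℝ) ≤ 5 * K := by exact_mod_cast this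
    linarith
  have hK0 : (0 : ℝ) ≤ K := Nat.cast_nonneg _
  have hmain := prob_goodPairs_ge (X := Fin 3 → ZMod p) (Y := Matrix (Fin 3) (Fin 3) (ZMod p))
    (Finset.univ.filter (fun A => IsUnit A)) K (3 / (2 * (p : ℝ))) (by positivity)
    Fintype.card_pos Fintype.card_pos (by
      rw [hX]
      push_cast
      have h1 : (K : ℝ) ^ 2 ≤ (p / 3) ^ 2 := pow_le_pow_left₀ hK0 hK3 2
      nlinarith [sq_nonneg (p : ℝ)]) (card_units_three p hp3) (by
      calc (K : ℝ) * (3 / (2 * (p : ℝ))) ≤ (p / 3) * (3 / (2 * (p : ℝ))) := by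
            apply mul_le_mul_of_nonneg_right hK3; positivity
        _ = 1 / 2 := by field_simp)
  have hJ : (Fintype.card (Jet (Fin 3) p) : ℝ) =
      (Fintype.card (Fin 3 → ZMod p) : ℝ) ^ (Fintype.card (Fin 3 → ZMod p)) *
      (Fintype.card (Matrix (Fin 3) (Fin 3) (ZMod p)) : ℝ) ^ (Fintype.card (Fin 3 → ZMod p)) := by
    rw [Fintype.card_prod, Nat.cast_mul]
    congr 1
    · rw [Fintype.card_fun, Nat.cast_pow]
    · rw [Fintype.card_fun, Nat.cast_pow]
  rw [hJ]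
  refine le_trans ?_ hmain
  apply mul_le_mul_of_nonneg_right _ (by positivity)
  rw [hX]
  push_cast
  rw [div_div, div_le_div_iff₀ (by positivity) (by positivity)]
  have h1 : (p / 5 : ℝ) ^ 2 ≤ (K : ℝ) ^ 2 := pow_le_pow_left₀ (by positivity) hK5 2
  nlinarith

/-- **Statistical dynamical Mordell-Lang in dimension three.** -/
theorem stat_three (ε : ℝ) (hε : 0 < ε) :
    ∃ K : ℕ, ∀ d B : ℕ, K ≤ d → K ≤ B →
      (1 - ε) * ((boxSet (Fin 3) d B).ncard : ℝ) ≤
        (({Φ | Φ ∈ boxSet (Fin 3) d B ∧ UniformDML Φ} :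
          Set (Fin 3 → MvPolynomial (Fin 3) ℤ)).ncard : ℝ) :=
  stat_main (1 / 200) (by norm_num) (fun p _ hp3 => goodJet_three p hp3) ε hε

end Three

end Pool.Agent.Helper87.DML
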